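import Pool.Agent.MP_a1dcd4_co.MD.St

/-! The confluence step: an involution from a connected family of moving elements. -/

set_option autoImplicit false

namespace Pool.Agent.MP_a1dcd4_co.MD

open Relation

section conf
variable {L : Type} [Lattice L]

/-- A step down between moving elements. -/
def rr_Conf (σ : L ≃o L) (y x : L) : Prop := x ⋖ y ∧ σ x ≠ x ∧ σ y ≠ y

/-- Common descendants. -/
def EE_Conf (σ : L ≃o L) : L → L → Prop := Join (ReflTransGen (rr_Conf σ))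

theorem rr_iff_Conf (σ : L ≃o L) (y x : L) : rr_Conf σ (σ y) (σ x) ↔ rr_Conf σ y x := by
  unfold rr_Conf
  rw [apply_covBy_apply_iff σ, σ.injective.ne_iff, σ.injective.ne_iff]

theorem rr_symm_Conf (σ : L ≃o L) {y x : L} (h : rr_Conf σ y x) :
    rr_Conf σ (σ.symm y) (σ.symm x) := by
  rw [← rr_iff_Conf, σ.apply_symm_apply, σ.apply_symm_apply]
  exact h

theorem ee_map_Conf (σ : L ≃o L) {y x : L} (h : EE_Conf σ y x) : EE_Conf σ (σ y) (σ x) := by
  obtain ⟨d, h1, h2⟩ := h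
  exact ⟨σ d, ReflTransGen.lift σ (fun a b m => (rr_iff_Conf σ a b).2 m) _ _ h1,
    ReflTransGen.lift σ (fun a b m => (rr_iff_Conf σ a b).2 m) _ _ h2⟩

theorem ee_symm_Conf (σ : L ≃o L) {y x : L} (h : EE_Conf σ y x) :
    EE_Conf σ (σ.symm y) (σ.symm x) := by
  obtain ⟨d, h1, h2⟩ := h
  exact ⟨σ.symm d, ReflTransGen.lift σ.symm (fun _ _ m => rr_symm_Conf σ m) _ _ h1,
    ReflTransGen.lift σ.symm (fun _ _ m => rr_symm_Conf σ m) _ _ h2⟩

theorem ee_mov_Conf (σ : L ≃o L) {x y : L} (h : EE_Conf σ x y) (hx : σ x ≠ x) : σ y ≠ y := by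
  obtain ⟨d, h1, h2⟩ := h
  have hd : σ d ≠ d := by
    rcases h1.cases_tail with e | ⟨c, -, m⟩
    · rw [e]; exact hx
    · exact m.2.1
  rcases h2.cases_head with e | ⟨c, m, -⟩
  · rw [e]; exact hd
  · exact m.2.2

theorem ee_equiv_Conf [IsModularLattice L] (σ : L ≃o L)
    (H : ∀ f x x' : L, σ f = f → f ⋖ x → f ⋖ x' → x ≠ x' → σ x ≠ x → σ x' ≠ x' →
      σ (x ⊔ x') = x ⊔ x') : Equivalence (EE_Conf σ) := by
  refine equivalence_join_reflTransGen (fun y x x' h h' => ?_)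
  by_cases e : x = x'
  · exact ⟨x, ReflGen.refl, e ▸ ReflTransGen.refl⟩
  have e1 : x ⊔ x' = y := h.1.wcovBy.sup_eq h'.1.wcovBy e
  have c1 : x ⋖ x ⊔ x' := e1 ▸ h.1
  have c2 : x' ⋖ x ⊔ x' := e1 ▸ h'.1
  have d1 : x ⊓ x' ⋖ x := inf_covBy_of_covBy_sup_of_covBy_sup_left c1 c2
  have d2 : x ⊓ x' ⋖ x' := inf_covBy_of_covBy_sup_of_covBy_sup_right c1 c2
  have hv : σ (x ⊓ x') ≠ x ⊓ x' := fun m => by
    have := H _ x x' m d1 d2 e h.2.1 h'.2.1
    rw [e1] at this
    exact h.2.2 this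
  exact ⟨x ⊓ x', ReflGen.single ⟨d1, hv, h.2.1⟩, ReflTransGen.single ⟨d2, hv, h'.2.1⟩⟩

theorem ee_not_Conf [Finite L] (σ : L ≃o L) (hE : Equivalence (EE_Conf σ)) (x : L) :
    σ x ≠ x → ¬ EE_Conf σ x (σ x) := by
  induction x using WellFoundedLT.induction with
  | ind x ih =>
    intro hx h
    by_cases hs : ∃ x1, rr_Conf σ x x1
    · obtain ⟨x1, h1⟩ := hs
      have e1 : EE_Conf σ x x1 := ⟨x1, ReflTransGen.single h1, ReflTransGen.refl⟩
      exact ih x1 h1.1.lt h1.2.1 (hE.trans (hE.symm e1) (hE.trans h (ee_map_Conf σ e1)))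
    · obtain ⟨d, h1, h2⟩ := h
      rcases h1.cases_head with e | ⟨c, m, -⟩
      · rcases h2.cases_head with e' | ⟨c, m, -⟩
        · exact hx (e'.trans e.symm)
        · have := rr_symm_Conf σ m
          rw [σ.symm_apply_apply] at this
          exact hs ⟨_, this⟩
      · exact hs ⟨c, m⟩

theorem rtg_Conf [Finite L] (σ : L ≃o L) (x y : L) :
    x ≤ y → (∀ f, x ≤ f → f ≤ y → σ f ≠ f) → ReflTransGen (rr_Conf σ) y x := by
  induction y using WellFoundedLT.induction with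
  | ind y ih =>
    intro hxy h
    rcases hxy.eq_or_lt with e | e
    · rw [e]
    · obtain ⟨z, h1, h2⟩ := exists_le_covBy_of_lt e
      exact ReflTransGen.head ⟨h2, h z h1 h2.le, h y hxy le_rfl⟩
        (ih z h2.lt h1 (fun f a b => h f a (b.trans h2.le)))

open Classical in
/-- The exchange of a class and its image. -/
noncomputable def tau_Conf (σ : L ≃o L) (x0 z : L) : L :=
  if EE_Conf σ x0 z then σ z else if EE_Conf σ x0 (σ.symm z) then σ.symm z else z

theorem tau_inv_Conf [Finite L] (σ : L ≃o L) (hE : Equivalence (EE_Conf σ)) {x0 : L}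
    (h0 : σ x0 ≠ x0) : Function.Involutive (tau_Conf σ x0) := by
  intro z
  by_cases h1 : EE_Conf σ x0 z
  · have h2 : ¬ EE_Conf σ x0 (σ z) := fun m =>
      ee_not_Conf σ hE z (ee_mov_Conf σ h1 h0) (hE.trans (hE.symm h1) m)
    have e : tau_Conf σ x0 z = σ z := by rw [tau_Conf, if_pos h1]
    rw [e, tau_Conf, if_neg h2, σ.symm_apply_apply, if_pos h1]
  · by_cases h2 : EE_Conf σ x0 (σ.symm z)
    · have e : tau_Conf σ x0 z = σ.symm z := by rw [tau_Conf, if_neg h1, if_pos h2]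
      rw [e, tau_Conf, if_pos h2, σ.apply_symm_apply]
    · have e : tau_Conf σ x0 z = z := by rw [tau_Conf, if_neg h1, if_neg h2]
      rw [e, e]

theorem tau_mono_Conf [Finite L] (σ : L ≃o L) (hE : Equivalence (EE_Conf σ)) (x0 : L) :
    Monotone (tau_Conf σ x0) := by
  intro x y hxy
  by_cases hf : ∃ f, x ≤ f ∧ f ≤ y ∧ σ f = f
  · obtain ⟨f, h1, h2, h3⟩ := hf
    have h4 : σ.symm f = f := by rw [σ.symm_apply_eq, h3]
    have a1 : tau_Conf σ x0 x ≤ f := by
      unfold tau_Conf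
      split_ifs
      · exact h3 ▸ σ.monotone h1
      · exact h4 ▸ σ.symm.monotone h1
      · exact h1
    have a2 : f ≤ tau_Conf σ x0 y := by
      unfold tau_Conf
      split_ifs
      · exact h3 ▸ σ.monotone h2
      · exact h4 ▸ σ.symm.monotone h2
      · exact h2
    exact a1.trans a2
  · have e : EE_Conf σ y x :=
      ⟨x, rtg_Conf σ x y hxy (fun f a b m => hf ⟨f, a, b, m⟩), ReflTransGen.refl⟩
    have e' := ee_symm_Conf σ e
    have k1 : EE_Conf σ x0 x ↔ EE_Conf σ x0 y :=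
      ⟨fun m => hE.trans m (hE.symm e), fun m => hE.trans m e⟩
    have k2 : EE_Conf σ x0 (σ.symm x) ↔ EE_Conf σ x0 (σ.symm y) :=
      ⟨fun m => hE.trans m (hE.symm e'), fun m => hE.trans m e'⟩
    unfold tau_Conf
    by_cases h1 : EE_Conf σ x0 x
    · rw [if_pos h1, if_pos (k1.1 h1)]
      exact σ.monotone hxy
    · rw [if_neg h1, if_neg (fun m => h1 (k1.2 m))]
      by_cases h2 : EE_Conf σ x0 (σ.symm x)
      · rw [if_pos h2, if_pos (k2.1 h2)]
        exact σ.symm.monotone hxy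
      · rw [if_neg h2, if_neg (fun m => h2 (k2.2 m))]
        exact hxy

end conf

theorem sConf : SConf := by
  intro L _ _ _ σ ⟨x0, h0⟩ H
  have hE := ee_equiv_Conf σ H
  have hi := tau_inv_Conf σ hE h0
  have hm := tau_mono_Conf σ hE x0
  refine ⟨Equiv.toOrderIso hi.toPerm hm hm, fun e => h0 ?_, ?_⟩
  · have e1 : tau_Conf σ x0 x0 = x0 := congrArg (fun t : L ≃o L => t x0) e
    rw [tau_Conf, if_pos (hE.refl x0)] at e1
    exact e1
  · ext z
    exact hi z

end Pool.Agent.MP_a1dcd4_co.MD
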