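import Pool.Agent.MP_a1dcd4_co.MD.St

/-! The confluence step. -/

set_option autoImplicit false

namespace Pool.Agent.MP_a1dcd4_co.MD

open Relation

theorem sConf2 : SConf := by
  intro L _ _ _ σ ⟨x₀, hx₀⟩ H
  classical
  let r : L → L → Prop := fun y x => x ⋖ y ∧ σ x ≠ x ∧ σ y ≠ y
  have dia : ∀ a b c, r a b → r a c → ∃ d, ReflGen r b d ∧ ReflTransGen r c d := by
    rintro a b c ⟨b1, b2, b3⟩ ⟨c1, c2, -⟩
    by_cases hbc : b = c
    · exact ⟨b, .refl, hbc ▸ .refl⟩
    have n1 : ¬ c ≤ b := fun h => hbc ((c1.eq_or_eq h b1.le).resolve_right b1.ne)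
    have e : b ⊔ c = a := (b1.eq_or_eq le_sup_left (sup_le b1.le c1.le)).resolve_left
      fun h => n1 (sup_eq_left.1 h)
    have v1 : b ⊓ c ⋖ b := by
      rw [inf_comm]
      exact IsLowerModularLattice.inf_covBy_of_covBy_sup (by rwa [sup_comm, e])
    have v2 : b ⊓ c ⋖ c := IsLowerModularLattice.inf_covBy_of_covBy_sup (by rwa [e])
    have m : σ (b ⊓ c) ≠ b ⊓ c := fun h => b3 (e ▸ H _ b c h v1 v2 hbc b2 c2)
    exact ⟨b ⊓ c, .single ⟨v1, m, b2⟩, .single ⟨v2, m, c2⟩⟩
  have eqv := equivalence_join_reflTransGen dia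
  set E := Join (ReflTransGen r)
  have rmap : ∀ a b, r (σ a) (σ b) ↔ r a b := fun a b => by
    simp only [r, apply_covBy_apply_iff, σ.injective.ne_iff]
  have emap : ∀ a b, E a b → E (σ a) (σ b) := fun a b ⟨d, h1, h2⟩ =>
    ⟨σ d, h1.lift σ fun a b => (rmap a b).2, h2.lift σ fun a b => (rmap a b).2⟩
  have emap' : ∀ a b, E a b → E (σ.symm a) (σ.symm b) := fun a b ⟨d, h1, h2⟩ =>
    have t : ∀ a b, r a b → r (σ.symm a) (σ.symm b) := fun a b h => by
      rw [← rmap]
      simpa using h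
    ⟨σ.symm d, h1.lift σ.symm t, h2.lift σ.symm t⟩
  have nomove : ∀ x, σ x ≠ x → ¬ E x (σ x) := fun x => by
    induction x using WellFoundedLT.induction with | ind x ih => ?_
    intro hx hE
    by_cases h : ∃ y, r x y
    · obtain ⟨y, hy⟩ := h
      have e1 : E x y := ⟨y, .single hy, .refl⟩
      exact ih y hy.1.lt hy.2.1 (eqv.trans (eqv.symm e1) (eqv.trans hE (emap _ _ e1)))
    · obtain ⟨d, h1, h2⟩ := hE
      rcases h1.cases_head with rfl | ⟨y, hy, -⟩
      · rcases h2.cases_head with e | ⟨y, hy, -⟩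
        · exact hx e
        · exact h ⟨σ.symm y, (rmap _ _).1 (by simpa using hy)⟩
      · exact h ⟨y, hy⟩
  have mov : ∀ z, E x₀ z → σ z ≠ z := by
    rintro z ⟨d, h1, h2⟩
    have hd : σ d ≠ d := by
      rcases h1.cases_tail with rfl | ⟨y, -, hy⟩
      · exact hx₀
      · exact hy.2.1
    rcases h2.cases_head with rfl | ⟨y, hy, -⟩
    · exact hd
    · exact hy.2.2
  have disj : ∀ z, E x₀ z → ¬ E x₀ (σ.symm z) := fun z h1 h2 =>
    nomove _ (mov _ h2) (by simpa using eqv.trans (eqv.symm h2) h1)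
  have path : ∀ y x, x ≤ y → (∀ f, x ≤ f → f ≤ y → σ f ≠ f) → ReflTransGen r y x := fun y => by
    induction y using WellFoundedLT.induction with | ind y ih => ?_
    intro x hxy h
    rcases hxy.eq_or_lt with rfl | hlt
    · exact .refl
    · obtain ⟨z, h1, h2⟩ := exists_le_covBy_of_lt hlt
      exact .head ⟨h2, h z h1 h2.le, h y hxy le_rfl⟩
        (ih z h2.lt x h1 fun f a b => h f a (b.trans h2.le))
  let t : L → L := fun z => if E x₀ z then σ z else if E x₀ (σ.symm z) then σ.symm z else z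
  have tt : ∀ z, t (t z) = z := fun z => by
    by_cases h1 : E x₀ z
    · have h2 : ¬ E x₀ (σ z) := fun h => disj _ h (by simpa using h1)
      simp [t, h1, h2]
    · by_cases h2 : E x₀ (σ.symm z) <;> simp [t, h1, h2]
  have tm : Monotone t := fun x y hxy => by
    by_cases h : ∀ f, x ≤ f → f ≤ y → σ f ≠ f
    · have e : E y x := ⟨x, path y x hxy h, .refl⟩
      have i1 : E x₀ x ↔ E x₀ y := ⟨fun h => eqv.trans h (eqv.symm e), fun h => eqv.trans h e⟩
      have i2 : E x₀ (σ.symm x) ↔ E x₀ (σ.symm y) :=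
        ⟨fun h => eqv.trans h (eqv.symm (emap' _ _ e)), fun h => eqv.trans h (emap' _ _ e)⟩
      simp only [t, i1, i2]
      split_ifs
      · exact σ.monotone hxy
      · exact σ.symm.monotone hxy
      · exact hxy
    · push Not at h
      obtain ⟨f, h1, h2, h3⟩ := h
      have h4 : σ.symm f = f := by rw [σ.symm_apply_eq, h3]
      refine le_trans (b := f) ?_ ?_ <;> simp only [t] <;> split_ifs
      · exact h3 ▸ σ.monotone h1
      · exact h4 ▸ σ.symm.monotone h1
      · exact h1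
      · exact h3 ▸ σ.monotone h2
      · exact h4 ▸ σ.symm.monotone h2
      · exact h2
  refine ⟨Equiv.toOrderIso ⟨t, t, tt, tt⟩ tm tm, fun h => hx₀ ?_, OrderIso.ext (funext tt)⟩
  have h1 : t x₀ = x₀ := DFunLike.congr_fun h x₀
  simpa [t, eqv.refl x₀] using h1

end Pool.Agent.MP_a1dcd4_co.MD
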