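import Mathlib

/-! A modular lattice with cyclic automorphism group of order `n` and `n ^ 2 + O(n)` elements. -/

set_option autoImplicit false

namespace Pool.Agent.MP_a1dcd4_co.MD

/-- The lattice of height two with atoms indexed by `ZMod n`. -/
inductive M (n : ℕ) : Type
  | bot : M n
  | atom (i : ZMod n) : M n
  | top : M n

namespace M

variable {n : ℕ}

/-- The order. -/
def le : M n → M n → Prop
  | bot, _ => True
  | _, top => True
  | atom i, atom j => i = j
  | _, _ => False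

/-- The join. -/
def sup : M n → M n → M n
  | bot, y => y
  | x, bot => x
  | atom i, atom j => if i = j then atom i else top
  | _, _ => top

/-- The meet. -/
def inf : M n → M n → M n
  | top, y => y
  | x, top => x
  | atom i, atom j => if i = j then atom i else bot
  | _, _ => bot

instance : Lattice (M n) where
  le := le
  le_refl := by rintro (_ | _ | _) <;> simp [le]
  le_trans := by rintro (_ | _ | _) (_ | _ | _) (_ | _ | _) <;> simp +contextual [le]
  le_antisymm := by rintro (_ | _ | _) (_ | _ | _) <;> simp +contextual [le]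
  sup := sup
  inf := inf
  le_sup_left := by rintro (_ | _ | _) (_ | _ | _) <;> simp only [sup] <;> (try split_ifs) <;> simp [le]
  le_sup_right := by
    rintro (_ | _ | _) (_ | _ | _) <;> simp only [sup] <;> (try split_ifs) <;> simp_all [le]
  sup_le := by
    rintro (_ | _ | _) (_ | _ | _) (_ | _ | _) <;> simp only [sup] <;> (try split_ifs) <;>
      simp_all +contextual [le]
    grind
  inf_le_left := by rintro (_ | _ | _) (_ | _ | _) <;> simp only [inf] <;> (try split_ifs) <;> simp [le]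
  inf_le_right := by
    rintro (_ | _ | _) (_ | _ | _) <;> simp only [inf] <;> (try split_ifs) <;> simp_all [le]
  le_inf := by
    rintro (_ | _ | _) (_ | _ | _) (_ | _ | _) <;> simp only [inf] <;> (try split_ifs) <;>
      simp_all +contextual [le]

@[simp] theorem bot_le' (x : M n) : bot ≤ x := by cases x <;> trivial

@[simp] theorem le_top' (x : M n) : x ≤ top := by cases x <;> trivial

@[simp] theorem atom_le_atom {i j : ZMod n} : atom i ≤ atom j ↔ i = j := Iff.rfl

@[simp] theorem atom_le_bot {i : ZMod n} : ¬ atom i ≤ bot := id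

@[simp] theorem top_le_atom {i : ZMod n} : ¬ top ≤ atom i := id

@[simp] theorem top_le_bot : ¬ (top : M n) ≤ bot := id

theorem sup_def (x y : M n) : x ⊔ y = sup x y := rfl

theorem inf_def (x y : M n) : x ⊓ y = inf x y := rfl

instance : IsModularLattice (M n) where
  sup_inf_le_assoc_of_le := by
    rintro (_ | i | _) (_ | j | _) (_ | k | _) h <;>
      first
      | exact absurd h id
      | (simp only [sup_def, inf_def, sup, inf]
         try split_ifs
         all_goals simp_all)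

/-- The shift of the atoms. -/
def sh (t : ZMod n) : M n → M n
  | bot => bot
  | atom i => atom (i + t)
  | top => top

theorem sh_le_sh {t : ZMod n} {x y : M n} : sh t x ≤ sh t y ↔ x ≤ y := by
  cases x <;> cases y <;> simp [sh]

theorem sh_sh (t u : ZMod n) (x : M n) : sh t (sh u x) = sh (t + u) x := by
  cases x <;> simp [sh, add_assoc, add_comm u]

theorem sh_zero (x : M n) : sh 0 x = x := by cases x <;> simp [sh]

theorem sh_sup (t : ZMod n) (x y : M n) : sh t (x ⊔ y) = sh t x ⊔ sh t y := by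
  cases x <;> cases y <;> simp only [sup_def, sup, sh, add_left_inj]
  split_ifs <;> rfl

theorem le_of_atoms [Nontrivial (ZMod n)] {x y : M n} (h : ∀ i, atom i ≤ x → atom i ≤ y) :
    x ≤ y := by
  rcases x with _ | i | _
  · simp
  · exact h i le_rfl
  · rcases y with _ | j | _
    · simpa using h 0
    · have h1 := h 0
      have h2 := h 1
      simp only [le_top', atom_le_atom, forall_const] at h1 h2
      exact absurd (h1.trans h2.symm) zero_ne_one
    · simp

theorem eq_bot {x : M n} {i : ZMod n} (h1 : x ≤ atom i) (h2 : ¬ atom i ≤ x) : x = bot := by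
  cases x <;> simp_all

end M

open M

variable {n : ℕ}

/-- The ambient product. -/
abbrev W (n : ℕ) : Type := M n × M n × M n × M n × Bool

/-- The defining conditions. -/
def Ok (x : W n) : Prop :=
  x.1 ≤ x.2.1 ∧ x.1 ≤ x.2.2.1 ∧ x.2.1 ≤ x.2.2.2.1 ∧ sh 1 x.2.2.1 ≤ x.2.2.2.1 ∧
    (x.2.2.2.2 = true → top ≤ x.2.1)

/-- The lattice. -/
def D (n : ℕ) : Type := {x : W n // Ok x}

noncomputable instance : Lattice (D n) :=
  Subtype.lattice (P := Ok)
    (fun x y ⟨a1, a2, a3, a4, a5⟩ ⟨b1, b2, b3, b4, b5⟩ =>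
      ⟨sup_le_sup a1 b1, sup_le_sup a2 b2, sup_le_sup a3 b3,
        (sh_sup 1 _ _).trans_le (sup_le_sup a4 b4), fun h => by
          rcases (Bool.or_eq_true _ _).mp h with h | h
          · exact (a5 h).trans le_sup_left
          · exact (b5 h).trans le_sup_right⟩)
    (fun x y ⟨a1, a2, a3, a4, a5⟩ ⟨b1, b2, b3, b4, b5⟩ =>
      ⟨inf_le_inf a1 b1, inf_le_inf a2 b2, inf_le_inf a3 b3,
        le_inf ((sh_le_sh.2 inf_le_left).trans a4) ((sh_le_sh.2 inf_le_right).trans b4),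
        fun h => le_inf (a5 ((Bool.and_eq_true _ _).mp h).1) (b5 ((Bool.and_eq_true _ _).mp h).2)⟩)

theorem D.le_def {x y : D n} : x ≤ y ↔ x.1.1 ≤ y.1.1 ∧ x.1.2.1 ≤ y.1.2.1 ∧ x.1.2.2.1 ≤ y.1.2.2.1 ∧
    x.1.2.2.2.1 ≤ y.1.2.2.2.1 ∧ x.1.2.2.2.2 ≤ y.1.2.2.2.2 := Iff.rfl

instance : IsModularLattice (D n) where
  sup_inf_le_assoc_of_le _ _ h := ⟨sup_inf_le_assoc_of_le _ h.1, sup_inf_le_assoc_of_le _ h.2.1,
    sup_inf_le_assoc_of_le _ h.2.2.1, sup_inf_le_assoc_of_le _ h.2.2.2.1,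
    sup_inf_le_assoc_of_le _ h.2.2.2.2⟩

/-- Labels of the join-irreducible elements. -/
inductive I (n : ℕ) : Type
  | t (i : ZMod n) : I n
  | a (i : ZMod n) : I n
  | b (i : ZMod n) : I n
  | s (i : ZMod n) : I n
  | g : I n

/-- The join-irreducible elements. -/
def ee : I n → D n
  | .t i => ⟨(bot, bot, bot, atom i, false), by simp [Ok, sh]⟩
  | .a i => ⟨(bot, atom i, bot, atom i, false), by simp [Ok, sh]⟩
  | .b i => ⟨(bot, bot, atom i, atom (i + 1), false), by simp [Ok, sh]⟩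
  | .s i => ⟨(atom i, atom i, atom i, top, false), by simp [Ok, sh]⟩
  | .g => ⟨(bot, top, bot, top, true), by simp [Ok, sh]⟩

/-- Their lower covers. -/
def dd : I n → D n
  | .t _ => ⟨(bot, bot, bot, bot, false), by simp [Ok, sh]⟩
  | .a i => ⟨(bot, bot, bot, atom i, false), by simp [Ok, sh]⟩
  | .b i => ⟨(bot, bot, bot, atom (i + 1), false), by simp [Ok, sh]⟩
  | .s i => ⟨(bot, atom i, atom i, top, false), by simp [Ok, sh]⟩
  | .g => ⟨(bot, top, bot, top, false), by simp [Ok, sh]⟩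

/-- The coordinate that detects a join-irreducible element. -/
def co : I n → D n → Prop
  | .t i, x => atom i ≤ x.1.2.2.2.1
  | .a i, x => atom i ≤ x.1.2.1
  | .b i, x => atom i ≤ x.1.2.2.1
  | .s i, x => atom i ≤ x.1.1
  | .g, x => x.1.2.2.2.2 = true

/-- The order of the join-irreducible elements. -/
def RR : I n → I n → Prop
  | .t i, .t j => i = j
  | .t i, .a j => i = j
  | .t i, .b j => i = j + 1
  | .t _, .s _ => True
  | .t _, .g => True
  | .a i, .a j => i = j
  | .a i, .s j => i = j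
  | .a _, .g => True
  | .b i, .b j => i = j
  | .b i, .s j => i = j
  | .s i, .s j => i = j
  | .g, .g => True
  | _, _ => False

variable [Nontrivial (ZMod n)]

theorem top_le_of {x : M n} {i : ZMod n} (h1 : atom i ≤ x) (h2 : atom (i + 1) ≤ x) : top ≤ x := by
  cases x <;> simp_all

theorem ee_le {j : I n} {x : D n} : ee j ≤ x ↔ co j x := by
  obtain ⟨a1, a2, a3, a4, a5⟩ := x.2
  cases j <;> simp only [ee, co, D.le_def, bot_le', true_and, Bool.false_le, and_true]
  · exact ⟨fun h => h.1, fun h => ⟨h, h.trans a3⟩⟩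
  · exact ⟨fun h => h.1, fun h => ⟨h, (sh_le_sh (t := 1).2 h).trans a4⟩⟩
  · exact ⟨fun h => h.1, fun h => ⟨h, h.trans a1, h.trans a2, top_le_of ((h.trans a1).trans a3)
      ((sh_le_sh (t := 1).2 (h.trans a2)).trans a4)⟩⟩
  · exact ⟨fun h => h.2.2 rfl, fun h => ⟨a5 h, (a5 h).trans a3, fun _ => h⟩⟩

theorem le_of_ee {x y : D n} (h : ∀ j, ee j ≤ x → ee j ≤ y) : x ≤ y := by
  simp only [ee_le] at h
  exact ⟨le_of_atoms fun i => h (.s i), le_of_atoms fun i => h (.a i),
    le_of_atoms fun i => h (.b i), le_of_atoms fun i => h (.t i), h .g⟩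

theorem ee_le_ee {j k : I n} : ee j ≤ ee k ↔ RR j k := by
  rw [ee_le]
  cases j <;> cases k <;> simp [co, ee, RR]

theorem ee_inj {j k : I n} (h : ee j = ee k) : j = k := by
  have h1 := ee_le_ee.1 h.le
  have h2 := ee_le_ee.1 h.ge
  cases j <;> cases k <;> simp_all [RR]

theorem lt_ee {j : I n} {v : D n} : v < ee j ↔ v ≤ dd j := by
  have h1 : dd j < ee j := by
    refine lt_of_le_not_ge ?_ fun h => ?_
    · cases j <;> simp [dd, ee, D.le_def]
    · rw [ee_le] at h
      cases j <;> simp [dd, co] at h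
  refine ⟨fun h => ?_, fun h => h.trans_lt h1⟩
  have h2 := h.not_ge
  have h3 := h.le
  rw [ee_le] at h2
  cases j <;> simp only [ee, dd, co, D.le_def] at h2 h3 ⊢
  · exact ⟨h3.1, h3.2.1, h3.2.2.1, (eq_bot h3.2.2.2.1 h2).le, h3.2.2.2.2⟩
  · exact ⟨h3.1, (eq_bot h3.2.1 h2).le, h3.2.2⟩
  · exact ⟨h3.1, h3.2.1, (eq_bot h3.2.2.1 h2).le, h3.2.2.2⟩
  · exact ⟨(eq_bot h3.1 h2).le, h3.2⟩
  · exact ⟨h3.1, h3.2.1, h3.2.2.1, h3.2.2.2.1, fun h => absurd h h2⟩

theorem exists_ee (φ : D n ≃o D n) (j : I n) : ∃ k, φ (ee j) = ee k := by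
  by_contra hcon
  refine (lt_ee.2 (le_refl (dd j))).not_ge (φ.le_iff_le.1 (le_of_ee fun k hk => ?_))
  have h1 : ee k < φ (ee j) := lt_of_le_of_ne hk fun e => hcon ⟨k, e.symm⟩
  rw [← φ.apply_symm_apply (ee k), φ.lt_iff_lt, lt_ee] at h1
  rw [← φ.apply_symm_apply (ee k), φ.le_iff_le]
  exact h1

/-- Labels with something below and something above. -/
def Mid (j : I n) : Prop := ∃ k l, k ≠ j ∧ l ≠ j ∧ RR k j ∧ RR j l

/-- Labels with something below and two labels above. -/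
def Two (j : I n) : Prop := Mid j ∧ ∃ l l', l ≠ l' ∧ l ≠ j ∧ l' ≠ j ∧ RR j l ∧ RR j l'

omit [Nontrivial (ZMod n)] in
theorem Mid.cases {j : I n} (h : Mid j) : (∃ i, j = .a i) ∨ ∃ i, j = .b i := by
  obtain ⟨k, l, h1, h2, h3, h4⟩ := h
  cases j
  · cases k <;> simp_all [RR]
  · simp
  · simp
  · cases l <;> simp_all [RR]
  · cases l <;> simp_all [RR]

omit [Nontrivial (ZMod n)] in
theorem Two.cases {j : I n} (h : Two j) : ∃ i, j = .a i := by
  obtain ⟨h0, l, l', h1, h2, h3, h4, h5⟩ := h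
  rcases h0.cases with h | ⟨i, rfl⟩
  · exact h
  · cases l <;> cases l' <;> simp_all [RR]

omit [Nontrivial (ZMod n)] in
theorem label {Φ Ψ : I n → I n} (h1 : ∀ j, Ψ (Φ j) = j) (h2 : ∀ j, Φ (Ψ j) = j)
    (hΦ : ∀ j k, RR j k → RR (Φ j) (Φ k)) (hΨ : ∀ j k, RR j k → RR (Ψ j) (Ψ k)) (i : ZMod n) :
    ∃ k, Φ (.t i) = .t k ∧ Φ (.a i) = .a k ∧ Φ (.b i) = .b k ∧ Φ (.s i) = .s k := by
  have two : ∀ {Φ : I n → I n}, Function.Injective Φ → (∀ j k, RR j k → RR (Φ j) (Φ k)) →
      ∀ i, ∃ k, Φ (.a i) = .a k := fun {Φ} hi h i => Two.cases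
    ⟨⟨Φ (.t i), Φ .g, hi.ne nofun, hi.ne nofun, h _ _ rfl, h _ _ trivial⟩, Φ (.s i), Φ .g,
      hi.ne nofun, hi.ne nofun, hi.ne nofun, h _ _ rfl, h _ _ trivial⟩
  have i1 : Function.Injective Φ := Function.LeftInverse.injective h1
  obtain ⟨k, hk⟩ := two i1 hΦ i
  obtain ⟨l, hl⟩ : ∃ l, Φ (.b i) = .b l := by
    refine (Mid.cases (j := Φ (.b i)) ⟨Φ (.t (i + 1)), Φ (.s i), i1.ne nofun, i1.ne nofun, hΦ _ _ rfl,
      hΦ _ _ rfl⟩).resolve_left fun ⟨m, hm⟩ => ?_
    obtain ⟨m', hm'⟩ := two (Function.LeftInverse.injective h2) hΨ m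
    rw [← hm, h1] at hm'
    cases hm'
  have t1 := hΦ (.t i) (.a i) rfl
  have t2 := i1.ne (a₁ := .t i) (a₂ := .a i) nofun
  have s1 := hΦ (.a i) (.s i) rfl
  have s2 := hΦ (.b i) (.s i) rfl
  rw [hk] at t1 t2 s1
  rw [hl] at s2
  refine ⟨k, ?_, hk, ?_⟩
  · generalize Φ (.t i) = z at t1 t2
    cases z <;> simp_all [RR]
  · rw [hl]
    generalize Φ (.s i) = z at s1 s2
    cases z <;> simp_all [RR]

/-- The shift of the lattice. -/
def shD (t : ZMod n) (x : D n) : D n :=
  ⟨(sh t x.1.1, sh t x.1.2.1, sh t x.1.2.2.1, sh t x.1.2.2.2.1, x.1.2.2.2.2),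
    sh_le_sh.2 x.2.1, sh_le_sh.2 x.2.2.1, sh_le_sh.2 x.2.2.2.1,
    by
      have := (sh_le_sh (t := t)).2 x.2.2.2.2.1
      rwa [sh_sh, add_comm, ← sh_sh] at this,
    fun h => (sh_le_sh (t := t)).2 (x.2.2.2.2.2 h)⟩

omit [Nontrivial (ZMod n)] in
theorem shD_shD (t u : ZMod n) (x : D n) : shD t (shD u x) = shD (t + u) x := by
  simp [shD, sh_sh]

omit [Nontrivial (ZMod n)] in
theorem shD_zero (x : D n) : shD 0 x = x := by
  simp [shD, sh_zero]

/-- The shift as an automorphism. -/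
noncomputable def shO (t : ZMod n) : D n ≃o D n where
  toFun := shD t
  invFun := shD (-t)
  left_inv x := by rw [shD_shD, neg_add_cancel, shD_zero]
  right_inv x := by rw [shD_shD, add_neg_cancel, shD_zero]
  map_rel_iff' := by simp [shD, D.le_def, sh_le_sh]

/-- The shifts as a homomorphism. -/
noncomputable def shH : Multiplicative (ZMod n) →* (D n ≃o D n) :=
  MonoidHom.mk' (fun t => shO t.toAdd) fun t u => by
    ext x
    exact (shD_shD _ _ x).symm

theorem shH_bijective [NeZero n] : Function.Bijective (shH (n := n)) := by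
  refine ⟨(injective_iff_map_eq_one _).2 fun t ht => ?_, fun φ => ?_⟩
  · have h1 : shD t.toAdd (ee (.t 0)) = ee (.t 0) := DFunLike.congr_fun ht _
    have h2 : shD t.toAdd (ee (.t 0)) = ee (.t (0 + t.toAdd)) := rfl
    have h3 := ee_inj (h2.symm.trans h1)
    simpa using h3
  choose Φ hΦ using exists_ee φ
  choose Ψ hΨ using exists_ee φ.symm
  have h1 : ∀ j, Ψ (Φ j) = j := fun j => ee_inj (by rw [← hΨ, ← hΦ, φ.symm_apply_apply])
  have h2 : ∀ j, Φ (Ψ j) = j := fun j => ee_inj (by rw [← hΦ, ← hΨ, φ.apply_symm_apply])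
  have r1 : ∀ j k, RR j k → RR (Φ j) (Φ k) := fun j k h => by
    rwa [← ee_le_ee, ← hΦ, ← hΦ, φ.le_iff_le, ee_le_ee]
  have r2 : ∀ j k, RR j k → RR (Ψ j) (Ψ k) := fun j k h => by
    rwa [← ee_le_ee, ← hΨ, ← hΨ, φ.symm.le_iff_le, ee_le_ee]
  choose γ g1 g2 g3 g4 using label h1 h2 r1 r2
  have step : ∀ i, γ (i + 1) = γ i + 1 := fun i => by
    have := r1 (.t (i + 1)) (.b i) rfl
    rwa [g1, g3] at this
  have lin : ∀ i, γ i = i + γ 0 := fun i => by
    obtain ⟨m, rfl⟩ := ZMod.natCast_zmod_surjective i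
    induction m with
    | zero => simp
    | succ m ih => rw [Nat.cast_succ, step, ih, add_right_comm]
  have gg : Φ .g = .g := by
    have a1 := r1 (.a 0) .g trivial
    have a2 := r1 (.a 1) .g trivial
    rw [g2, lin] at a1 a2
    have a3 : ∀ (z : I n) (u : ZMod n), RR (.a (0 + u)) z → RR (.a (1 + u)) z → z = .g := by
      intro z u
      cases z <;> simp only [RR, false_imp_iff, imp_true_iff] <;>
        exact fun h1 h2 => absurd (add_right_cancel (h1.trans h2.symm)) zero_ne_one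
    exact a3 _ _ a1 a2
  have key : ∀ j, φ (ee j) = shO (γ 0) (ee j) := fun j => by
    rw [hΦ]
    cases j
    · rw [g1, lin]; rfl
    · rw [g2, lin]; rfl
    · rw [g3, lin]
      exact Subtype.ext (by simp [ee, shO, shD, sh, add_right_comm])
    · rw [g4, lin]; rfl
    · rw [gg]; rfl
  refine ⟨Multiplicative.ofAdd (γ 0), ?_⟩
  have all : ∀ x j, ee j ≤ shO (γ 0) x ↔ ee j ≤ φ x := fun x j => by
    rw [← h2 j, ← hΦ, φ.le_iff_le, key, (shO (γ 0)).le_iff_le]
  ext x
  exact le_antisymm (le_of_ee fun j => (all x j).1) (le_of_ee fun j => (all x j).2)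

/-- Patterns for one coordinate. -/
def pat (u : ZMod n) : Fin 4 → M n := ![bot, top, atom u, atom (u + 1)]

/-- A parametrisation of a set that contains the lattice. -/
def par : (ZMod n × ZMod n) ⊕ (ZMod n × Fin 4 × Fin 4 × Fin 4 × Fin 4 × Bool) → W n
  | .inl q => (bot, atom q.1, atom q.2, top, false)
  | .inr q => (pat q.1 q.2.1, pat q.1 q.2.2.1, pat q.1 q.2.2.2.1, pat q.1 q.2.2.2.2.1, q.2.2.2.2.2)

omit [Nontrivial (ZMod n)] in
theorem exists_par (x : D n) : ∃ q, par q = x.1 := by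
  obtain ⟨⟨x1, x2, x3, x4, y⟩, a1, a2, a3, a4, a5⟩ := x
  have hp : ∀ (u : ZMod n) (z : M n), (∀ i, z = atom i → i = u ∨ i = u + 1) → ∃ k, pat u k = z := by
    rintro u (_ | i | _) h
    · exact ⟨0, rfl⟩
    · rcases h i rfl with rfl | rfl
      · exact ⟨2, rfl⟩
      · exact ⟨3, rfl⟩
    · exact ⟨1, rfl⟩
  suffices h : (∃ i j, (bot, atom i, atom j, top, false) = (x1, x2, x3, x4, y)) ∨
      ∃ u : ZMod n, (∀ i, x1 = atom i → i = u ∨ i = u + 1) ∧ (∀ i, x2 = atom i → i = u ∨ i = u + 1) ∧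
        (∀ i, x3 = atom i → i = u ∨ i = u + 1) ∧ ∀ i, x4 = atom i → i = u ∨ i = u + 1 by
    rcases h with ⟨i, j, h⟩ | ⟨u, h1, h2, h3, h4⟩
    · exact ⟨.inl (i, j), h⟩
    · obtain ⟨k1, rfl⟩ := hp u _ h1
      obtain ⟨k2, rfl⟩ := hp u _ h2
      obtain ⟨k3, rfl⟩ := hp u _ h3
      obtain ⟨k4, rfl⟩ := hp u _ h4
      exact ⟨.inr (u, k1, k2, k3, k4, y), rfl⟩
  dsimp only at a1 a2 a3 a4 a5
  cases x1 <;> cases x2 <;> cases x3 <;> cases x4 <;> cases y <;> simp_all [sh]
  exact Or.inr ⟨_, a4.symm, Or.inl rfl, Or.inr a4.symm⟩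

theorem exists_small (n : ℕ) (hn : 2 ≤ n) :
    ∃ (L : Type) (_ : Lattice L) (_ : IsModularLattice L) (_ : Finite L),
      Nonempty ((L ≃o L) ≃* Multiplicative (ZMod n)) ∧ Nat.card L ≤ n ^ 2 + 512 * n := by
  have : Fact (1 < n) := ⟨hn⟩
  have : NeZero n := ⟨by omega⟩
  choose q hq using exists_par (n := n)
  have hi : Function.Injective q := fun x y h => Subtype.ext (by rw [← hq, ← hq, h])
  refine ⟨D n, inferInstance, inferInstance, Finite.of_injective q hi,
    ⟨(MulEquiv.ofBijective _ shH_bijective).symm⟩, (Nat.card_le_card_of_injective q hi).trans_eq ?_⟩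
  simp only [Nat.card_eq_fintype_card, Fintype.card_sum, Fintype.card_prod, ZMod.card,
    Fintype.card_fin, Fintype.card_bool]
  ring

end Pool.Agent.MP_a1dcd4_co.MD
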