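import Pool.Agent.MP_a1dcd4_co.MD.St

/-! Points and lines over a fixed element; the geometric step. -/

set_option autoImplicit false

namespace Pool.Agent.MP_a1dcd4_co.MD

open Finset

section Basic

variable {L : Type} [Lattice L] {ρ : L → ℕ} {f a b c u v w x y z : L}

/-- Points over `f`. -/
def Pt (ρ : L → ℕ) (f a : L) : Prop := f ≤ a ∧ ρ a = ρ f + 1

/-- Perspective points. -/
def Pe (ρ : L → ℕ) (f a b : L) : Prop := a = b ∨ ∃ w, Pt ρ f w ∧ w ≤ a ⊔ b ∧ w ≠ a ∧ w ≠ b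

theorem Rk.le (h : Rk ρ) (hxy : x ≤ y) : ρ x ≤ ρ y := h.mono.monotone hxy

theorem Rk.eq (h : Rk ρ) (hxy : x ≤ y) (hr : ρ y ≤ ρ x) : x = y := by
  by_contra hne
  exact absurd (h.mono (lt_of_le_of_ne hxy hne)) (not_lt.2 hr)

theorem Rk.sup_pt (h : Rk ρ) (ha : Pt ρ f a) (hz : f ≤ z) (hn : ¬ a ≤ z) :
    ρ (a ⊔ z) = ρ z + 1 := by
  have h1 := h.add a z
  have h2 : ρ (a ⊓ z) < ρ a := h.mono (lt_of_le_of_ne inf_le_left fun e => hn (inf_eq_left.1 e))
  have h3 : ρ f ≤ ρ (a ⊓ z) := h.le (le_inf ha.1 hz)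
  have := ha.2
  omega

theorem Rk.sup_pt_le (h : Rk ρ) (ha : Pt ρ f a) (hz : f ≤ z) : ρ (a ⊔ z) ≤ ρ z + 1 := by
  by_cases hn : a ≤ z
  · rw [sup_eq_right.2 hn]
    omega
  · exact (h.sup_pt ha hz hn).le

theorem Rk.line (h : Rk ρ) (ha : Pt ρ f a) (hb : Pt ρ f b) (hab : a ≠ b) :
    ρ (a ⊔ b) = ρ f + 2 := by
  rw [h.sup_pt ha hb.1 fun e => hab (h.eq e (by rw [ha.2, hb.2])), hb.2]

theorem Rk.line_eq (h : Rk ρ) (ha : Pt ρ f a) (hb : Pt ρ f b) (hab : a ≠ b) (h1 : a ≤ z)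
    (h2 : b ≤ z) (hz : ρ z ≤ ρ f + 2) : a ⊔ b = z :=
  h.eq (sup_le h1 h2) (by rw [h.line ha hb hab]; exact hz)

theorem Rk.proj (h : Rk ρ) (hw : Pt ρ f w) (hv : Pt ρ f v) (hz : f ≤ z) (hn : ¬ w ≤ z)
    (h1 : v ≤ w ⊔ z) (h2 : v ≠ w) : Pt ρ f ((v ⊔ w) ⊓ z) ∧ (v ⊔ w) ⊓ z ⊔ w = v ⊔ w := by
  have e1 := h.line hv hw h2
  have e2 : v ⊔ w ⊔ z = w ⊔ z := by rw [sup_assoc, sup_eq_right.2 h1]
  have e3 := h.add (v ⊔ w) z
  rw [e2, h.sup_pt hw hz hn] at e3
  have hp : Pt ρ f ((v ⊔ w) ⊓ z) := ⟨le_inf (hv.1.trans le_sup_left) hz, by omega⟩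
  exact ⟨hp, h.line_eq hp hw (fun e => hn (e ▸ inf_le_right)) inf_le_left le_sup_right e1.le⟩

theorem Pe.symm (h : Pe ρ f a b) : Pe ρ f b a := by
  rcases h with h | ⟨w, h1, h2, h3, h4⟩
  · exact Or.inl h.symm
  · exact Or.inr ⟨w, h1, by rwa [sup_comm], h4, h3⟩

theorem Rk.pe_trans (h : Rk ρ) (ha : Pt ρ f a) (hb : Pt ρ f b) (hc : Pt ρ f c)
    (h1 : Pe ρ f a b) (h2 : Pe ρ f b c) : Pe ρ f a c := by
  by_cases hab : a = b
  · rwa [hab]
  by_cases hbc : b = c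
  · rwa [← hbc]
  by_cases hac : a = c
  · exact Or.inl hac
  obtain ⟨u, hu, u1, u2, u3⟩ := h1.resolve_left hab
  obtain ⟨v, hv, v1, v2, v3⟩ := h2.resolve_left hbc
  have l1 := h.line ha hb hab
  have l2 := h.line hb hc hbc
  have l3 := h.line ha hc hac
  by_cases hcl : c ≤ a ⊔ b
  · refine Or.inr ⟨b, hb, ?_, Ne.symm hab, hbc⟩
    rw [h.line_eq ha hc hac le_sup_left hcl l1.le]
    exact le_sup_right
  have e1 : u ⊔ a = a ⊔ b := h.line_eq hu ha u2 u1 le_sup_left l1.le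
  have e2 : u ⊔ b = a ⊔ b := h.line_eq hu hb u3 u1 le_sup_right l1.le
  have e3 : v ⊔ b = b ⊔ c := h.line_eq hv hb v2 v1 le_sup_left l2.le
  have e4 : v ⊔ c = b ⊔ c := h.line_eq hv hc v3 v1 le_sup_right l2.le
  have n1 : ¬ v ≤ a ⊔ b := fun e => hcl (le_sup_right.trans (e3 ▸ sup_le e le_sup_right))
  have n2 : ¬ u ≤ a ⊔ c := fun e => by
    have : a ⊔ b = a ⊔ c := h.eq (e1 ▸ sup_le e le_sup_left) (by omega)
    exact hcl (this ▸ le_sup_right)
  have n3 : v ≠ u := fun e => n1 (e ▸ u1)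
  have n4 : v ≤ u ⊔ (a ⊔ c) := by
    rw [← sup_assoc, e1]
    exact v1.trans (sup_le_sup_right le_sup_right c)
  obtain ⟨p1, p2⟩ := h.proj hu hv (ha.1.trans le_sup_left) n2 n4 n3
  refine Or.inr ⟨_, p1, inf_le_right, fun e => ?_, fun e => ?_⟩
  · rw [e, sup_comm, e1] at p2
    exact n1 (p2 ▸ le_sup_left)
  · rw [e] at p2
    have q1 : b ⊔ c = v ⊔ u := h.eq (e4 ▸ sup_le le_sup_left (p2 ▸ le_sup_left))
      (by rw [h.line hv hu n3]; omega)
    have q2 : a ⊔ b = b ⊔ c := h.eq (e2 ▸ sup_le (q1 ▸ le_sup_right) le_sup_left) (by omega)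
    exact hcl (q2 ▸ le_sup_right)

theorem Rk.pt_map (h : Rk ρ) {τ : L ≃o L} (hτ : τ f = f) (ha : Pt ρ f a) : Pt ρ f (τ a) :=
  ⟨hτ ▸ τ.monotone ha.1, by rw [h.inv, ha.2]⟩

theorem Rk.pe_map (h : Rk ρ) {τ : L ≃o L} (hτ : τ f = f) (hab : Pe ρ f a b) :
    Pe ρ f (τ a) (τ b) := by
  rcases hab with rfl | ⟨w, h1, h2, h3, h4⟩
  · exact Or.inl rfl
  · exact Or.inr ⟨τ w, h.pt_map hτ h1, by rw [← map_sup]; exact τ.monotone h2,
      τ.injective.ne h3, τ.injective.ne h4⟩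

end Basic

section Join

variable {L : Type} [Lattice L] [OrderBot L] {ρ : L → ℕ} {f c v z : L} {ι : Type} [DecidableEq ι]
  {e : ι → L}

/-- The join of finitely many elements over `f`. -/
def Jn (f : L) (e : ι → L) (T : Finset ι) : L := f ⊔ T.sup e

omit [DecidableEq ι] in
theorem Jn_le {T : Finset ι} : Jn f e T ≤ z ↔ f ≤ z ∧ ∀ i ∈ T, e i ≤ z := by
  simp [Jn]

theorem Jn_insert (j : ι) (T : Finset ι) : Jn f e (insert j T) = e j ⊔ Jn f e T := by
  simp only [Jn, sup_insert]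
  ac_rfl

omit [DecidableEq ι] in
theorem Jn_empty : Jn f e ∅ = f := by simp [Jn]

omit [DecidableEq ι] in
theorem le_Jn (T : Finset ι) : f ≤ Jn f e T := le_sup_left

theorem Rk.pe_of_le (h : Rk ρ) (he : ∀ i, Pt ρ f (e i)) (hv : Pt ρ f v) (T : Finset ι)
    (hT : v ≤ Jn f e T) : ∃ i ∈ T, Pe ρ f v (e i) := by
  induction T using Finset.induction_on with
  | empty =>
    rw [Jn_empty] at hT
    have := h.le hT
    have := hv.2
    omega
  | insert j T _ ih =>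
    rw [Jn_insert] at hT
    by_cases h1 : v ≤ Jn f e T
    · obtain ⟨i, hi, h2⟩ := ih h1
      exact ⟨i, mem_insert_of_mem hi, h2⟩
    refine ⟨j, mem_insert_self _ _, ?_⟩
    by_cases h2 : v = e j
    · exact Or.inl h2
    have h3 : ¬ e j ≤ Jn f e T := fun e => h1 (by rwa [sup_eq_right.2 e] at hT)
    exact Or.inr ⟨_, (h.proj (he j) hv (le_Jn T) h3 hT h2).1, inf_le_left,
      fun e => h1 (e ▸ inf_le_right), fun e => h3 (e ▸ inf_le_right)⟩

theorem Rk.Jn_rank (h : Rk ρ) (he : ∀ i, Pt ρ f (e i)) (T : Finset ι) :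
    ρ (Jn f e T) ≤ ρ f + T.card := by
  induction T using Finset.induction_on with
  | empty => simp [Jn_empty]
  | insert j T hj ih =>
    rw [Jn_insert, card_insert_of_notMem hj]
    have := h.sup_pt_le (he j) (le_Jn (e := e) T)
    omega

end Join

section Count

variable {L : Type} [Lattice L] [Fintype L] {ρ : L → ℕ} {f a b c u y z : L} {s : ℕ}

open Classical in
/-- The points below `z`. -/
noncomputable def Pts (ρ : L → ℕ) (f z : L) : Finset L := univ.filter fun a => Pt ρ f a ∧ a ≤ z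

theorem mem_Pts : a ∈ Pts ρ f z ↔ Pt ρ f a ∧ a ≤ z := by simp [Pts]

/-- All points below `c` are perspective. -/
def Th (ρ : L → ℕ) (f c : L) : Prop :=
  ∀ a b, Pt ρ f a → Pt ρ f b → a ≤ c → b ≤ c → Pe ρ f a b

/-- All lines below `c` have `s + 1` points. -/
def Od (ρ : L → ℕ) (f c : L) (s : ℕ) : Prop :=
  ∀ a b, Pt ρ f a → Pt ρ f b → a ≤ c → b ≤ c → a ≠ b → (Pts ρ f (a ⊔ b)).card = s + 1

theorem Rk.size_le (h : Rk ρ) (ht : Th ρ f c) (hy : Pt ρ f y) (ha : Pt ρ f a) (hb : Pt ρ f b)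
    (ac : a ≤ c) (bc : b ≤ c) (ay : a ≠ y) (hby : b ≠ y) :
    (Pts ρ f (a ⊔ y)).card ≤ (Pts ρ f (b ⊔ y)).card := by
  have l1 := h.line ha hy ay
  have l2 := h.line hb hy hby
  by_cases hbl : b ≤ a ⊔ y
  · rw [h.line_eq hb hy hby hbl le_sup_right l1.le]
  have hab : a ≠ b := fun e => hbl (e ▸ le_sup_left)
  obtain ⟨w, hw, w1, w2, w3⟩ := (ht a b ha hb ac bc).resolve_left hab
  have l3 := h.line ha hb hab
  have e1 : w ⊔ a = a ⊔ b := h.line_eq hw ha w2 w1 le_sup_left l3.le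
  have e2 : w ⊔ b = a ⊔ b := h.line_eq hw hb w3 w1 le_sup_right l3.le
  have n1 : ¬ w ≤ a ⊔ y := fun e => hbl (le_sup_right.trans (e1 ▸ sup_le e le_sup_left))
  have n2 : ¬ w ≤ b ⊔ y := fun e => by
    have q1 : a ≤ b ⊔ y := le_sup_left.trans (e2 ▸ sup_le e le_sup_left)
    have q2 : a ⊔ y = b ⊔ y := h.eq (sup_le q1 le_sup_right) (by omega)
    exact hbl (q2 ▸ le_sup_left)
  have key : ∀ v ∈ Pts ρ f (a ⊔ y), v ≠ w ∧ Pt ρ f ((v ⊔ w) ⊓ (b ⊔ y)) ∧
      (v ⊔ w) ⊓ (b ⊔ y) ⊔ w = v ⊔ w := fun v hv => by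
    rw [mem_Pts] at hv
    have q1 : v ≠ w := fun e => n1 (e ▸ hv.2)
    refine ⟨q1, h.proj hw hv.1 (hb.1.trans le_sup_left) n2 ?_ q1⟩
    rw [← sup_assoc, e2]
    exact hv.2.trans (sup_le_sup_right le_sup_left y)
  refine card_le_card_of_injOn (fun v => (v ⊔ w) ⊓ (b ⊔ y))
    (fun v hv => mem_coe.2 (mem_Pts.2 ⟨(key v hv).2.1, inf_le_right⟩)) fun v hv v' hv' e => ?_
  by_contra hne
  have q1 : v ⊔ w = v' ⊔ w := by
    rw [← (key v hv).2.2, ← (key v' hv').2.2]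
    exact congrArg (· ⊔ w) e
  have m1 := mem_Pts.1 hv
  have m2 := mem_Pts.1 hv'
  have q2 : v ⊔ v' = a ⊔ y := h.line_eq m1.1 m2.1 hne m1.2 m2.2 l1.le
  have q3 : a ⊔ y = v ⊔ w := h.eq (q2 ▸ sup_le le_sup_left (q1 ▸ le_sup_left))
    (by rw [h.line m1.1 hw (key v hv).1]; omega)
  exact n1 (q3 ▸ le_sup_right)

theorem Rk.exists_order (h : Rk ρ) (ht : Th ρ f c) (ha : Pt ρ f a) (hb : Pt ρ f b)
    (ac : a ≤ c) (bc : b ≤ c) (hab : a ≠ b) : ∃ s, 2 ≤ s ∧ Od ρ f c s := by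
  classical
  have e1 : ∀ y a b, Pt ρ f y → Pt ρ f a → Pt ρ f b → a ≤ c → b ≤ c → a ≠ y → b ≠ y →
      (Pts ρ f (a ⊔ y)).card = (Pts ρ f (b ⊔ y)).card := fun y a b h1 h2 h3 h4 h5 h6 h7 =>
    le_antisymm (h.size_le ht h1 h2 h3 h4 h5 h6 h7) (h.size_le ht h1 h3 h2 h5 h4 h7 h6)
  obtain ⟨w, hw, w1, w2, w3⟩ := (ht a b ha hb ac bc).resolve_left hab
  have e2 : 3 ≤ (Pts ρ f (a ⊔ b)).card := by
    rw [← card_eq_three.2 ⟨w, a, b, w2, w3, hab, rfl⟩]
    refine card_le_card fun t ht => ?_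
    simp only [mem_insert, mem_singleton] at ht
    rcases ht with rfl | rfl | rfl
    · exact mem_Pts.2 ⟨hw, w1⟩
    · exact mem_Pts.2 ⟨ha, le_sup_left⟩
    · exact mem_Pts.2 ⟨hb, le_sup_right⟩
  refine ⟨(Pts ρ f (a ⊔ b)).card - 1, by omega, fun a' b' ha' hb' ac' bc' hab' => ?_⟩
  rw [Nat.sub_add_cancel (by omega)]
  by_cases hbb : b = b'
  · subst hbb
    exact e1 b a' a hb ha' ha ac' ac hab' hab
  · rw [e1 b' a' b hb' ha' hb ac' bc hab' hbb, sup_comm b b',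
      e1 b b' a hb hb' ha bc' ac (Ne.symm hbb) hab]

theorem Rk.count_sup (h : Rk ρ) (ho : Od ρ f c s) (hu : Pt ρ f u) (uc : u ≤ c) (hz : f ≤ z)
    (zc : z ≤ c) (hn : ¬ u ≤ z) : (Pts ρ f (u ⊔ z)).card = s * (Pts ρ f z).card + 1 := by
  classical
  have hmem : u ∈ Pts ρ f (u ⊔ z) := mem_Pts.2 ⟨hu, le_sup_left⟩
  have key : ∀ v ∈ (Pts ρ f (u ⊔ z)).erase u, Pt ρ f ((v ⊔ u) ⊓ z) ∧ (v ⊔ u) ⊓ z ⊔ u = v ⊔ u :=
    fun v hv => by
      rw [mem_erase, mem_Pts] at hv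
      exact h.proj hu hv.2.1 hz hn hv.2.2 hv.1
  rw [← card_erase_add_one hmem, card_eq_sum_card_fiberwise (f := fun v => (v ⊔ u) ⊓ z)
    (t := Pts ρ f z) fun v hv => mem_coe.2 (mem_Pts.2 ⟨(key v hv).1, inf_le_right⟩),
    mul_comm, ← smul_eq_mul, ← sum_const]
  congr 1
  refine sum_congr rfl fun w hw => ?_
  rw [mem_Pts] at hw
  have wu : w ≠ u := fun e => hn (e ▸ hw.2)
  have l1 := h.line hw.1 hu wu
  have h1 := ho w u hw.1 hu (hw.2.trans zc) uc wu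
  rw [← card_erase_add_one (mem_Pts.2 ⟨hu, le_sup_right⟩ : u ∈ Pts ρ f (w ⊔ u)),
    Nat.add_right_cancel_iff] at h1
  rw [← h1]
  congr 1
  ext v
  rw [mem_filter]
  constructor
  · rintro ⟨hv, e⟩
    have q := (key v hv).2
    rw [mem_erase, mem_Pts] at hv ⊢
    rw [e] at q
    exact ⟨hv.1, hv.2.1, q ▸ le_sup_left⟩
  · intro hv
    rw [mem_erase, mem_Pts] at hv
    have hv' : v ∈ (Pts ρ f (u ⊔ z)).erase u := mem_erase.2 ⟨hv.1, mem_Pts.2
      ⟨hv.2.1, hv.2.2.trans (sup_le (hw.2.trans le_sup_right) le_sup_left)⟩⟩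
    refine ⟨hv', ?_⟩
    have q : v ⊔ u = w ⊔ u := h.line_eq hv.2.1 hu hv.1 hv.2.2 le_sup_right l1.le
    have q2 := (key v hv').1
    rw [q] at q2 ⊢
    exact (h.eq (le_inf le_sup_left hw.2) (by rw [q2.2, hw.1.2])).symm

variable [OrderBot L]

theorem Rk.count_Jn (h : Rk ρ) (ho : Od ρ f c s) (fc : f ≤ c) {ι : Type} [DecidableEq ι]
    {e : ι → L} (he : ∀ i, Pt ρ f (e i)) (ec : ∀ i, e i ≤ c) (T : Finset ι) :
    (Pts ρ f (Jn f e T)).card = ∑ i ∈ range (ρ (Jn f e T) - ρ f), s ^ i := by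
  induction T using Finset.induction_on with
  | empty =>
    rw [Jn_empty, Nat.sub_self, range_zero, sum_empty, card_eq_zero]
    refine eq_empty_of_forall_notMem fun a ha => ?_
    rw [mem_Pts] at ha
    have := h.le ha.2
    have := ha.1.2
    omega
  | insert j T _ ih =>
    rw [Jn_insert]
    by_cases h1 : e j ≤ Jn f e T
    · rwa [sup_eq_right.2 h1]
    · have h2 := h.le (le_Jn (f := f) (e := e) T)
      rw [h.count_sup ho (he j) (ec j) (le_Jn T) (Jn_le.2 ⟨fc, fun i _ => ec i⟩) h1, ih,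
        h.sup_pt (he j) (le_Jn T) h1, Nat.add_comm _ 1, Nat.add_comm _ 1, Nat.add_sub_assoc h2,
        Nat.add_comm 1, Nat.add_comm 1, geom_sum_succ]

theorem Rk.tuple (h : Rk ρ) (ho : Od ρ f c s) (fc : f ≤ c) (k : ℕ) :
    (Pts ρ f c).card ^ k ≤ (∑ i ∈ range k, s ^ i) ^ k * Fintype.card L := by
  classical
  have e1 : ∀ z, (Fintype.piFinset fun _ : Fin k => Pts ρ f z).card = (Pts ρ f z).card ^ k :=
    fun z => by simp
  rw [← e1]
  refine (card_le_mul_card_image (f := fun e : Fin k → L => Jn f e univ) _ _ fun z hz => ?_).trans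
    (Nat.mul_le_mul_left _ (card_le_univ _))
  obtain ⟨e, he, rfl⟩ := mem_image.1 hz
  simp only [Fintype.mem_piFinset, mem_Pts] at he
  have h1 := h.count_Jn ho fc (fun i => (he i).1) (fun i => (he i).2) univ
  have h2 := h.Jn_rank (fun i => (he i).1) univ
  rw [card_univ, Fintype.card_fin] at h2
  refine le_trans (card_le_card (t := Fintype.piFinset fun _ : Fin k => Pts ρ f (Jn f e univ))
    fun e' he' => ?_) ?_
  · rw [mem_filter] at he'
    simp only [Fintype.mem_piFinset, mem_Pts] at he' ⊢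
    exact fun i => ⟨(he'.1 i).1, he'.2 ▸ (Jn_le.1 le_rfl).2 i (mem_univ i)⟩
  · rw [e1, h1]
    exact Nat.pow_le_pow_left (sum_le_sum_of_subset (range_mono (by omega))) k

end Count

section Main

theorem geom_prime {p q s : ℕ} (hp : p.Prime) (hq : q.Prime) (h : p ∣ ∑ i ∈ range q, s ^ i) :
    p = q ∨ p % q = 1 := by
  have := Fact.mk hp
  have h0 : ∑ i ∈ range q, (s : ZMod p) ^ i = 0 := by
    have := (ZMod.natCast_eq_zero_iff _ p).2 h
    push_cast at this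
    exact this
  have h1 : (s : ZMod p) ^ q = 1 := by
    have := mul_geom_sum (s : ZMod p) q
    rw [h0, mul_zero] at this
    exact (sub_eq_zero.1 this.symm)
  rcases (Nat.dvd_prime hq).1 (orderOf_dvd_of_pow_eq_one h1) with h2 | h2
  · rw [orderOf_eq_one_iff] at h2
    simp only [h2, one_pow, sum_const, card_range, nsmul_eq_mul, mul_one] at h0
    exact Or.inl ((Nat.prime_dvd_prime_iff_eq hp hq).1 ((ZMod.natCast_eq_zero_iff _ p).1 h0))
  · have h3 : (s : ZMod p) ≠ 0 := fun e => by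
      rw [e, zero_pow hq.ne_zero] at h1
      exact zero_ne_one h1
    obtain ⟨k, hk⟩ := h2 ▸ ZMod.orderOf_dvd_card_sub_one h3
    right
    rw [show p = q * k + 1 by have := hp.pos; omega, Nat.mul_add_mod, Nat.mod_eq_of_lt hq.one_lt]

theorem orbit_ind {p k : ℕ} (hp : p.Prime) {P : ℕ → Prop} (h0 : P 0)
    (hadd : ∀ a b, P a → P b → P (a + b)) (hmod : ∀ a, P a → P (a % p)) (hk : P k)
    (hn : ¬ p ∣ k) (j : ℕ) : P j := by
  have hm : ∀ a m, P a → P (a * m) := fun a m ha => by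
    induction m with
    | zero => simpa using h0
    | succ m ih => exact hadd _ _ ih ha
  obtain ⟨m, -, e⟩ := Nat.exists_mul_mod_eq_one_of_coprime
    ((Nat.Prime.coprime_iff_not_dvd hp).2 hn).symm hp.one_lt
  have := hm 1 j (e ▸ hmod _ (hm k m hk))
  rwa [one_mul] at this

theorem eq_of_dvd {p i j : ℕ} (hi : i < p) (hj : j < p) (h : p ∣ p - i + j) : i = j := by
  obtain ⟨k, hk⟩ := h
  have h1 : k < 2 := Nat.lt_of_mul_lt_mul_left (a := p) (by omega)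
  interval_cases k <;> omega

variable {L : Type} [Lattice L] {ρ : L → ℕ} {σ : L ≃o L} {p : ℕ}

theorem pow_add_apply (a b : ℕ) (y : L) : (σ ^ (a + b)) y = (σ ^ a) ((σ ^ b) y) := by
  rw [pow_add]
  rfl

theorem pow_fix {y : L} (h : σ y = y) (k : ℕ) : (σ ^ k) y = y := by
  induction k with
  | zero => rfl
  | succ k ih => rw [pow_add_apply, pow_one, h, ih]

theorem pow_inj (hp : p.Prime) (hσ : σ ^ p = 1) {y : L} (hy : σ y ≠ y) {i j : ℕ} (hi : i < p)
    (hj : j < p) (h : (σ ^ i) y = (σ ^ j) y) : i = j := by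
  refine eq_of_dvd hi hj ?_
  by_contra hn
  refine hy ?_
  have := orbit_ind (P := fun a => (σ ^ a) y = y) hp rfl
    (fun a b ha hb => by rw [pow_add_apply, hb, ha])
    (fun a ha => by rwa [← pow_eq_pow_mod a hσ])
    (by rw [pow_add_apply, ← h, ← pow_add_apply, Nat.sub_add_cancel hi.le, hσ]; rfl) hn 1
  rwa [pow_one] at this

theorem Rk.fix_of (h : Rk ρ) (hp : p.Prime) (hσ : σ ^ p = 1) {f x c : L} (hf : σ f = f)
    (hc : ∀ z, c ≤ z ↔ f ≤ z ∧ ∀ i : ℕ, (σ ^ i) x ≤ z) : σ c = c := by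
  obtain ⟨h1, h2⟩ := (hc c).1 le_rfl
  refine (h.eq ((hc _).2 ⟨hf ▸ σ.monotone h1, fun i => ?_⟩) (h.inv σ c).le).symm
  have e : (σ ^ i) x = σ ((σ ^ (p - 1 + i)) x) := by
    rw [← congrFun (congrArg DFunLike.coe (pow_one σ)) ((σ ^ (p - 1 + i)) x), ← pow_add_apply,
      ← add_assoc, Nat.add_sub_cancel' hp.one_le, pow_add, hσ, one_mul]
  rw [e]
  exact σ.monotone (h2 _)

theorem sq_le_two_pow {n : ℕ} (h : n ≠ 3) : n ^ 2 ≤ 2 ^ n := by
  by_cases h4 : 4 ≤ n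
  · clear h
    induction n, h4 using Nat.le_induction with
    | base => norm_num
    | succ n hn ih => rw [pow_succ 2]; nlinarith
  · interval_cases n <;> simp at h ⊢

theorem Rk.spanning [Fintype L] [OrderBot L] (h : Rk ρ) (hp : p.Prime) (h3 : p % 3 = 2)
    (h5 : p % 5 ≠ 1) (hσ : σ ^ p = 1) (f : L) : ∀ x, σ f = f → Pt ρ f x → σ x ≠ x →
      (∀ z, (∀ i : ℕ, (σ ^ i) x ≤ z) → ρ f + 3 ≤ ρ z) → p ^ 2 ≤ Fintype.card L := by
  classical
  induction f using WellFoundedGT.induction with | ind f ih => ?_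
  intro x hf hx hm hR
  have he : ∀ i : ℕ, Pt ρ f ((σ ^ i) x) := fun i => h.pt_map (pow_fix hf i) hx
  obtain ⟨c, hc⟩ : ∃ c, c = Jn f (fun i : ℕ => (σ ^ i) x) (range p) := ⟨_, rfl⟩
  have hcz : ∀ z, c ≤ z ↔ f ≤ z ∧ ∀ i : ℕ, (σ ^ i) x ≤ z := fun z => by
    rw [hc, Jn_le]
    refine and_congr_right fun _ => ⟨fun H i => ?_, fun H i _ => H i⟩
    rw [pow_eq_pow_mod i hσ]
    exact H _ (mem_range.2 (Nat.mod_lt _ hp.pos))
  obtain ⟨fc, ec⟩ := (hcz c).1 le_rfl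
  have hcf := h.fix_of hp hσ hf hcz
  have hRc := hR c ec
  by_cases hpe : ∀ k, Pe ρ f x ((σ ^ k) x) → p ∣ k
  · have hinj : ∀ S ∈ (range p).powerset, ∀ S' ∈ (range p).powerset,
        Jn f (fun i : ℕ => (σ ^ i) x) S = Jn f (fun i : ℕ => (σ ^ i) x) S' → S ⊆ S' := by
      intro S hS S' hS' e i hi
      obtain ⟨j, hj, h1⟩ := h.pe_of_le he (he i) S' ((Jn_le.1 e.le).2 i hi)
      have hi' := mem_range.1 (mem_powerset.1 hS hi)
      have h2 := h.pe_map (pow_fix hf (p - i)) h1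
      rw [← pow_add_apply, ← pow_add_apply, Nat.sub_add_cancel hi'.le, hσ] at h2
      rwa [eq_of_dvd hi' (mem_range.1 (mem_powerset.1 hS' hj)) (hpe _ h2)]
    have h1 := card_le_card_of_injOn (s := (range p).powerset) (t := univ)
      (Jn f fun i : ℕ => (σ ^ i) x) (fun _ _ => mem_coe.2 (mem_univ _))
      fun S hS S' hS' e => Subset.antisymm (hinj S hS S' hS' e) (hinj S' hS' S hS e.symm)
    rw [card_powerset, card_range, card_univ] at h1
    exact (sq_le_two_pow (by omega)).trans h1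
  push Not at hpe
  obtain ⟨k, hk, hn⟩ := hpe
  have hall := orbit_ind (P := fun a => Pe ρ f x ((σ ^ a) x)) hp (Or.inl rfl)
    (fun a b ha hb => h.pe_trans hx (he a) (he _) ha (by
      rw [pow_add_apply]
      exact h.pe_map (pow_fix hf a) hb))
    (fun a ha => by rwa [← pow_eq_pow_mod a hσ]) hk hn
  have hx' : ∀ a, Pt ρ f a → a ≤ c → Pe ρ f a x := fun a ha ac => by
    obtain ⟨i, -, hi⟩ := h.pe_of_le he ha _ (hc ▸ ac)
    exact h.pe_trans ha (he i) hx hi (hall i).symm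
  have ht : Th ρ f c := fun a b ha hb ac bc =>
    h.pe_trans ha hx hb (hx' a ha ac) (hx' b hb bc).symm
  have h1x : Pt ρ f (σ x) := h.pt_map hf hx
  have xc : x ≤ c := ec 0
  have x1c : σ x ≤ c := hcf ▸ σ.monotone xc
  obtain ⟨s, hs, ho⟩ := h.exists_order ht hx h1x xc x1c hm.symm
  have hN := h.count_Jn ho fc he ec (range p)
  rw [← hc] at hN
  have hNL : (Pts ρ f c).card ≤ Fintype.card L := card_le_univ _
  obtain ⟨R, hRR⟩ : ∃ R, R = ρ c - ρ f := ⟨_, rfl⟩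
  rw [← hRR] at hN
  by_cases hu : ∃ u, Pt ρ f u ∧ u ≤ c ∧ σ u = u
  · obtain ⟨u, hu, uc, uf⟩ := hu
    have xu : x ≠ u := fun e => hm (by rw [e, uf])
    have l1 := h.line hx hu xu
    have hm' : σ (x ⊔ u) ≠ x ⊔ u := fun e => by
      have := hR (x ⊔ u) fun i => pow_fix e i ▸ (σ ^ i).monotone le_sup_left
      omega
    by_cases hR4 : ρ f + 4 ≤ ρ c
    · refine ih u (lt_of_le_of_ne hu.1 fun e => ?_) (x ⊔ u) uf
        ⟨le_sup_right, by rw [l1, hu.2]⟩ hm' fun z hz => ?_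
      · have := hu.2
        rw [← e] at this
        omega
      · have := h.le ((hcz z).2 ⟨(hx.1.trans le_sup_left).trans (hz 0),
          fun i => ((σ ^ i).monotone le_sup_left).trans (hz i)⟩)
        have := hu.2
        omega
    · have l2 := h.line hx h1x hm.symm
      have n1 : ¬ u ≤ x ⊔ σ x := fun e => by
        have q := h.line_eq hx hu xu le_sup_left e l2.le
        refine hm' (h.eq ?_ (h.inv σ _).ge)
        rw [map_sup, uf]
        exact sup_le (q ▸ le_sup_right) le_sup_right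
      have fm : f ≤ x ⊔ σ x := hx.1.trans le_sup_left
      have e1 : u ⊔ (x ⊔ σ x) = c := h.eq (sup_le uc (sup_le xc x1c))
        (by rw [h.sup_pt hu fm n1]; omega)
      have key : ∀ i : ℕ, Pt ρ f (((σ ^ i) x ⊔ u) ⊓ (x ⊔ σ x)) ∧
          ((σ ^ i) x ⊔ u) ⊓ (x ⊔ σ x) ⊔ u = (σ ^ i) x ⊔ u := fun i =>
        h.proj hu (he i) fm n1 (e1 ▸ ec i) fun e =>
          xu ((σ ^ i).injective (e.trans (pow_fix uf i).symm))
      have h1 := card_le_card_of_injOn (s := range p) (t := Pts ρ f (x ⊔ σ x))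
        (fun i => ((σ ^ i) x ⊔ u) ⊓ (x ⊔ σ x))
        (fun i _ => mem_coe.2 (mem_Pts.2 ⟨(key i).1, inf_le_right⟩)) fun i hi j hj e => by
          refine pow_inj hp hσ hm' (mem_range.1 hi) (mem_range.1 hj) ?_
          rw [map_sup, map_sup, pow_fix uf, pow_fix uf, ← (key i).2, ← (key j).2]
          exact congrArg (· ⊔ u) e
      rw [card_range, ho x (σ x) hx h1x xc x1c hm.symm] at h1
      rw [show R = 3 by omega] at hN
      simp only [sum_range_succ, range_zero, sum_empty] at hN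
      have h2 : ((range p).image fun i => (σ ^ i) (x ⊔ u)).card = p := by
        rw [card_image_of_injOn fun i hi j hj e =>
          pow_inj hp hσ hm' (mem_range.1 hi) (mem_range.1 hj) e, card_range]
      have h4 := card_le_univ (Pts ρ f c ∪ (range p).image fun i => (σ ^ i) (x ⊔ u))
      rw [card_union_of_disjoint (disjoint_left.2 fun a ha hb => by
        obtain ⟨i, -, rfl⟩ := mem_image.1 hb
        have := (mem_Pts.1 ha).1.2
        rw [h.inv] at this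
        omega), h2] at h4
      obtain ⟨t, rfl⟩ : ∃ t, p = t + 1 := ⟨p - 1, by omega⟩
      have h6 : t ≤ s := by omega
      nlinarith [Nat.pow_le_pow_left h6 2]
  have hdvd : p ∣ (Pts ρ f c).card := by
    by_contra hnd
    have := Fact.mk hp
    have hiff : ∀ a, (Pt ρ f (σ a) ∧ σ a ≤ c) ↔ (Pt ρ f a ∧ a ≤ c) := fun a => by
      unfold Pt
      rw [h.inv]
      conv_lhs => rw [← hf, ← hcf, σ.le_iff_le, σ.le_iff_le, hf]
    let τ : Equiv.Perm {a // Pt ρ f a ∧ a ≤ c} := Equiv.Perm.subtypePerm σ.toEquiv hiff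
    have hτ : ∀ (n : ℕ) a, ((τ ^ n) a).1 = (σ ^ n) a.1 := fun n a => by
      induction n with
      | zero => rfl
      | succ n ih =>
        rw [pow_succ', pow_succ', Equiv.Perm.mul_apply]
        exact congrArg σ ih
    obtain ⟨a, ha⟩ := Equiv.Perm.exists_fixed_point_of_prime (p := p) (n := 1) (σ := τ)
      (by rwa [Fintype.card_of_subtype (Pts ρ f c) fun a => mem_Pts])
      (by
        ext a
        rw [pow_one, hτ, hσ]
        rfl)
    exact hu ⟨a.1, a.2.1, a.2.2, congrArg Subtype.val ha⟩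
  have t2 := h.tuple ho fc 2
  have t3 := h.tuple ho fc 3
  have even : ∀ g, s + 1 ≤ g → (Pts ρ f c).card = (s + 1) * g → p ^ 2 ≤ Fintype.card L := by
    intro g hg e
    rw [e] at hdvd t2
    have q1 : p ≤ g := by
      rcases (Nat.Prime.dvd_mul hp).1 hdvd with q | q
      · exact (Nat.le_of_dvd (by omega) q).trans hg
      · exact Nat.le_of_dvd (by omega) q
    simp only [sum_range_succ, range_zero, sum_empty, pow_zero, pow_one, zero_add] at t2
    rw [mul_pow, add_comm 1 s] at t2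
    have q2 := Nat.le_of_mul_le_mul_left t2 (by positivity)
    have q3 := Nat.pow_le_pow_left q1 2
    omega
  have q0 := card_pos.2 ⟨x, mem_Pts.2 ⟨hx, xc⟩⟩
  have q3 : (∑ i ∈ range 3, s ^ i) ^ 3 ≤ 6 * s ^ 6 := by
    have q3 : 4 * ∑ i ∈ range 3, s ^ i ≤ 7 * s ^ 2 := by
      simp only [sum_range_succ, range_zero, sum_empty]
      nlinarith
    have q4 := Nat.pow_le_pow_left q3 3
    rw [mul_pow, mul_pow, ← pow_mul, show 2 * 3 = 6 from rfl] at q4
    omega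
  have odd : ∀ d, (∑ i ∈ range 3, s ^ i) ^ 3 ≤ d * (Pts ρ f c).card →
      (Pts ρ f c).card ^ 2 ≤ d * Fintype.card L := fun d hd => by
    generalize (∑ i ∈ range 3, s ^ i) ^ 3 = G at hd t3
    generalize (Pts ρ f c).card = N at q0 hd t3
    refine Nat.le_of_mul_le_mul_left ?_ q0
    nlinarith [Nat.mul_le_mul_right (Fintype.card L) hd]
  rcases (by omega : R = 3 ∨ R = 4 ∨ R = 5 ∨ R = 6 ∨ R = 7 ∨ R = 8 ∨ 9 ≤ R) with
    rfl | rfl | rfl | rfl | rfl | rfl | h9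
  · rcases geom_prime hp Nat.prime_three (hN ▸ hdvd) with q | q <;> omega
  · refine even (s ^ 2 + 1) (by nlinarith) ?_
    simp only [hN, sum_range_succ, range_zero, sum_empty]
    ring
  · rcases geom_prime hp Nat.prime_five (hN ▸ hdvd) with q | q
    · simp only [sum_range_succ, range_zero, sum_empty] at hN
      have q1 := Nat.pow_le_pow_left hs 4
      have q2 := Nat.pow_le_pow_left hs 3
      subst q
      omega
    · exact absurd q h5
  · refine even (s ^ 4 + s ^ 2 + 1) (by nlinarith [Nat.zero_le (s ^ 4)]) ?_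
    simp only [hN, sum_range_succ, range_zero, sum_empty]
    ring
  · have q2 := odd 6 (q3.trans (Nat.mul_le_mul_left 6 (hN ▸ single_le_sum (f := fun i => s ^ i)
      (fun _ _ => Nat.zero_le _) (mem_range.2 (by omega)))))
    have m2 : (∑ i ∈ range 7, s ^ i) % 2 = 1 := by
      rw [sum_nat_mod]
      simp only [Nat.pow_mod s]
      rcases Nat.mod_two_eq_zero_or_one s with e | e <;> rw [e] <;> decide
    have m3 : (∑ i ∈ range 7, s ^ i) % 3 = 1 := by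
      rw [sum_nat_mod]
      simp only [Nat.pow_mod s]
      rcases (by omega : s % 3 = 0 ∨ s % 3 = 1 ∨ s % 3 = 2) with e | e | e <;> rw [e] <;> decide
    rw [← hN] at m2 m3
    obtain ⟨d, hd⟩ := hdvd
    rw [hd] at q0 q2 m2 m3
    have d3 : 3 ≤ d := by
      by_contra hlt
      rcases (by omega : d = 0 ∨ d = 1 ∨ d = 2) with rfl | rfl | rfl <;> omega
    have q5 := Nat.pow_le_pow_left (Nat.mul_le_mul_left p d3) 2
    rw [mul_pow] at q5
    omega
  · refine even (s ^ 6 + s ^ 4 + s ^ 2 + 1)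
      (by nlinarith [Nat.zero_le (s ^ 4), Nat.zero_le (s ^ 6)]) ?_
    simp only [hN, sum_range_succ, range_zero, sum_empty]
    ring
  · have q1 := Nat.pow_le_pow_left (Nat.le_of_dvd q0 hdvd) 2
    have q2 : ∑ i ∈ range 9, s ^ i ≤ (Pts ρ f c).card :=
      hN ▸ sum_le_sum_of_subset (range_mono h9)
    have q4 : 6 * s ^ 6 ≤ ∑ i ∈ range 9, s ^ i := by
      simp only [sum_range_succ, range_zero, sum_empty]
      have a1 : 2 * s ^ 6 ≤ s ^ 7 := by rw [pow_succ' s 6]; exact Nat.mul_le_mul_right _ hs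
      have a2 : 2 * s ^ 7 ≤ s ^ 8 := by rw [pow_succ' s 7]; exact Nat.mul_le_mul_right _ hs
      omega
    have q5 := odd 1 (by omega)
    omega

theorem Rk.geo [Finite L] (h : Rk ρ) (hp : p.Prime) (h3 : p % 3 = 2) (h5 : p % 5 ≠ 1)
    (hσ : σ ^ p = 1) {f x x' : L} (hf : σ f = f) (hx : f ⋖ x) (hx' : f ⋖ x') (hne : x ≠ x')
    (hm : σ x ≠ x) (hm' : σ x' ≠ x') (hj : σ (x ⊔ x') ≠ x ⊔ x') : p ^ 2 ≤ Nat.card L := by
  classical
  have := Fintype.ofFinite L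
  have : Nonempty L := ⟨f⟩
  let _ : OrderBot L := Fintype.toOrderBot L
  rw [Nat.card_eq_fintype_card]
  have px : Pt ρ f x := ⟨hx.le, h.cov _ _ hx⟩
  have px' : Pt ρ f x' := ⟨hx'.le, h.cov _ _ hx'⟩
  have col : ∀ y, Pt ρ f y → σ y ≠ y → p ^ 2 ≤ Fintype.card L ∨
      ∃ c, σ c = c ∧ ρ c = ρ f + 2 ∧ ∀ i : ℕ, (σ ^ i) y ≤ c := fun y py my => by
    by_cases H : ∀ z, (∀ i : ℕ, (σ ^ i) y ≤ z) → ρ f + 3 ≤ ρ z
    · exact Or.inl (h.spanning hp h3 h5 hσ f y hf py my H)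
    push Not at H
    obtain ⟨z, hz, hr⟩ := H
    have q := h.line_eq py (h.pt_map hf py) my.symm (hz 0) (pow_one σ ▸ hz 1) (by omega)
    refine Or.inr ⟨z, h.fix_of hp hσ hf (x := y) fun t => ⟨fun H => ⟨?_, fun i => (hz i).trans H⟩,
      fun H => q ▸ sup_le (H.2 0) (pow_one σ ▸ H.2 1)⟩,
      q ▸ h.line py (h.pt_map hf py) my.symm, hz⟩
    exact (py.1.trans (hz 0)).trans H
  rcases col x px hm with H | ⟨c, c1, c2, c3⟩
  · exact H
  rcases col x' px' hm' with H | ⟨c', c1', c2', c3'⟩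
  · exact H
  have key : ∀ (y y' d : L), Pt ρ f y → Pt ρ f y' → y ≠ y' → σ y ≠ y → σ (y ⊔ y') ≠ y ⊔ y' →
      σ d = d → ρ d = ρ f + 2 → (∀ i : ℕ, (σ ^ i) y ≤ d) → ∀ i < p, ∀ k < p, ∀ j l : ℕ,
      (σ ^ i) y ⊔ (σ ^ j) y' = (σ ^ k) y ⊔ (σ ^ l) y' → i = k := by
    intro y y' d py py' n1 my mj d1 d2 d3 i hi k hk j l e
    by_contra hik
    have a1 := h.pt_map (pow_fix hf i) py
    have a2 := h.pt_map (pow_fix hf k) py
    have a3 := h.pt_map (pow_fix hf j) py'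
    have q1 := h.line_eq a1 a2 (fun e => hik (pow_inj hp hσ my hi hk e)) (d3 i) (d3 k) d2.le
    have q2 : d = (σ ^ i) y ⊔ (σ ^ j) y' := h.eq (q1 ▸ sup_le le_sup_left (e ▸ le_sup_left))
      (by have := h.sup_pt_le a1 a3.1; have := a3.2; omega)
    have q3 : y' ≤ d := by
      rw [← (σ ^ j).le_iff_le, pow_fix d1, q2]
      exact le_sup_right
    rw [h.line_eq py py' n1 (d3 0) q3 d2.le] at mj
    exact mj d1
  have h1 := card_le_card_of_injOn (s := range p ×ˢ range p) (t := univ)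
    (fun q : ℕ × ℕ => (σ ^ q.1) x ⊔ (σ ^ q.2) x') (fun _ _ => mem_coe.2 (mem_univ _))
    fun q hq r hr e => by
      simp only [coe_product, coe_range, Set.mem_prod, Set.mem_Iio] at hq hr
      exact Prod.ext (key x x' c px px' hne hm hj c1 c2 c3 _ hq.1 _ hr.1 _ _ e)
        (key x' x c' px' px hne.symm hm' (by rwa [sup_comm]) c1' c2' c3' _ hq.2 _ hr.2 q.1 r.1
          (by rw [sup_comm, sup_comm ((σ ^ r.2) x')]; exact e))
  rwa [card_product, card_range, card_univ, ← pow_two] at h1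

end Main

end Pool.Agent.MP_a1dcd4_co.MD
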