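import Pool.Agent.MP_a1dcd4_co.MD.Rank
import Pool.Agent.MP_a1dcd4_co.MD.Geo

/-! The lower bound. -/

set_option autoImplicit false

namespace Pool.Agent.MP_a1dcd4_co.MD

theorem four_le {L : Type} [Lattice L] [Finite L] {ρ : L → ℕ} (h : Rk ρ) {σ : L ≃o L} {x : L}
    (hx : σ x ≠ x) : 4 ≤ Nat.card L := by
  classical
  have := Fintype.ofFinite L
  have e := h.inv σ x
  have n1 : ¬ x ≤ σ x := fun t => hx (h.eq t e.le).symm
  have n2 : ¬ σ x ≤ x := fun t => hx (h.eq t e.ge)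
  have a1 := h.mono (left_lt_sup.2 n2)
  have a2 := h.mono (inf_lt_left.2 n1)
  rw [Nat.card_eq_fintype_card]
  refine le_trans (le_of_eq ?_) (Finset.card_le_univ {x ⊔ σ x, x ⊓ σ x, x, σ x})
  have d : ∀ a b : L, ρ a ≠ ρ b → a ≠ b := fun a b t u => t (u ▸ rfl)
  rw [Finset.card_insert_of_notMem, Finset.card_insert_of_notMem, Finset.card_pair hx.symm]
  · simp only [Finset.mem_insert, Finset.mem_singleton, not_or]
    exact ⟨d _ _ (by omega), d _ _ (by omega)⟩
  · simp only [Finset.mem_insert, Finset.mem_singleton, not_or]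
    exact ⟨d _ _ (by omega), d _ _ (by omega), d _ _ (by omega)⟩

theorem lower (hC : SConf) {p : ℕ} (hp : p.Prime) (h3 : p % 3 = 2) (h5 : p % 5 ≠ 1) (L : Type)
    [Lattice L] [IsModularLattice L] [Finite L] (e : (L ≃o L) ≃* Multiplicative (ZMod p)) :
    p ^ 2 ≤ Nat.card L := by
  have := Fact.mk hp
  obtain ⟨ρ, h⟩ := sRank L
  have hpow : ∀ σ : L ≃o L, σ ^ p = 1 := fun σ => by
    have := pow_card_eq_one' (x := σ)
    rwa [Nat.card_congr e.toEquiv, Nat.card_congr Multiplicative.toAdd, Nat.card_zmod] at this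
  obtain ⟨σ, hσ⟩ : ∃ σ : L ≃o L, σ ≠ 1 :=
    ⟨e.symm (Multiplicative.ofAdd 1), by simp⟩
  have hx : ∃ x, σ x ≠ x := by
    by_contra hcon
    push Not at hcon
    exact hσ (OrderIso.ext (funext hcon))
  rcases hp.eq_two_or_odd' with rfl | ⟨k, hk⟩
  · exact four_le h hx.choose_spec
  by_contra hlt
  obtain ⟨τ, t1, t2⟩ := hC L σ hx fun f x x' a1 a2 a3 a4 a5 a6 => by
    by_contra a7
    exact hlt (h.geo hp h3 h5 (hpow σ) a1 a2 a3 a4 a5 a6 a7)
  have := hpow τ
  rw [hk, pow_succ, pow_mul, pow_two, t2, one_pow, one_mul] at this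
  exact t1 this

end Pool.Agent.MP_a1dcd4_co.MD
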