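import Pool.Agent.MP_a1dcd4_co.MD.St

set_option autoImplicit false

namespace Pool.Agent.MP_a1dcd4_co.MD

theorem fin_Rank {L : Type} [PartialOrder L] [Finite L] (x : L) :
    Order.height x ≤ ((Set.Iio x).ncard : ℕ) := by
  induction x using WellFoundedLT.induction with
  | ind x ih =>
    refine Order.height_le_coe_iff.2 fun y hy => (ih y hy).trans_lt ?_
    exact_mod_cast Set.ncard_lt_ncard (Set.Iio_ssubset_Iio hy) (Set.toFinite _)

theorem ht_Rank (L : Type) [PartialOrder L] [Finite L] : ∃ ρ : L → ℕ, StrictMono ρ ∧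
    (∀ y n, (∀ x < y, ρ x < n) → ρ y ≤ n) ∧ ∀ (σ : L ≃o L) (x : L), ρ (σ x) = ρ x := by
  have h1 : ∀ x : L, Order.height x < ⊤ := fun x => (fin_Rank x).trans_lt (ENat.natCast_lt_top _)
  have h2 : ∀ x : L, ((Order.height x).toNat : ℕ∞) = Order.height x := fun x =>
    ENat.natCast_toNat (h1 x).ne
  refine ⟨fun x => (Order.height x).toNat, fun x y h => ?_, fun y n h => ?_, fun σ x => ?_⟩
  · have := Order.height_strictMono h (h1 x)
    rw [← h2 x, ← h2 y] at this
    exact_mod_cast this
  · have : Order.height y ≤ n := Order.height_le_coe_iff.2 fun x hx => by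
      rw [← h2 x]
      exact_mod_cast h x hx
    rw [← h2 y] at this
    exact_mod_cast this
  · exact congrArg ENat.toNat (Order.height_orderIso σ x)

theorem sup_Rank {L : Type} [Lattice L] {x z y : L} (hx : x ⋖ y) (hz : z ⋖ y) (h : z ≠ x) :
    x ⊔ z = y := by
  rcases hx.eq_or_eq le_sup_left (sup_le hx.le hz.le) with e | e
  · rcases hz.eq_or_eq (sup_eq_left.1 e) hx.le with e' | e'
    · exact absurd e'.symm h
    · exact absurd e' hx.ne
  · exact e

theorem sRank : SRank := by
  intro L _ _ _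
  obtain ⟨ρ, h1, h2, h3⟩ := ht_Rank L
  have cov : ∀ y x : L, x ⋖ y → ρ y = ρ x + 1 := by
    intro y
    induction y using WellFoundedLT.induction with
    | ind y ih =>
      intro x hx
      refine le_antisymm (h2 y _ fun z hz => ?_) (h1 hx.lt)
      obtain ⟨w, hw1, hw2⟩ := exists_le_covBy_of_lt hz
      refine (h1.monotone hw1).trans_lt ?_
      by_cases e : w = x
      · rw [e]
        exact Nat.lt_succ_self _
      · have e' := sup_Rank hx hw2 e
        have a1 : x ⊓ w ⋖ w := IsLowerModularLattice.inf_covBy_of_covBy_sup (e'.symm ▸ hx)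
        have a2 : w ⊓ x ⋖ x :=
          IsLowerModularLattice.inf_covBy_of_covBy_sup (((sup_comm w x).trans e').symm ▸ hw2)
        have b1 := ih w hw2.lt _ a1
        have b2 := ih x hx.lt _ a2
        rw [inf_comm] at b2
        omega
  refine ⟨ρ, h1, fun x y => ?_, fun x y => cov y x, h3⟩
  induction x using WellFoundedLT.induction with
  | ind x ih =>
    by_cases h : x ≤ y
    · rw [sup_eq_right.2 h, inf_eq_left.2 h, add_comm]
    · obtain ⟨w, hw1, hw2⟩ := exists_le_covBy_of_lt (inf_lt_left.2 h)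
      have e1 : w ⊓ y = x ⊓ y :=
        le_antisymm (inf_le_inf_right y hw2.le) (le_inf hw1 inf_le_right)
      have e2 : x ⊓ (w ⊔ y) = w := by
        rw [inf_comm, sup_inf_assoc_of_le y hw2.le, inf_comm, sup_eq_left.2 hw1]
      have e3 : x ⊔ (w ⊔ y) = x ⊔ y := by rw [← sup_assoc, sup_eq_left.2 hw2.le]
      have a1 : w ⊔ y ⋖ x ⊔ (w ⊔ y) := covBy_sup_of_inf_covBy_left (e2.symm ▸ hw2)
      have b1 := cov _ _ a1
      have b2 := cov _ _ hw2
      have b3 := ih w hw2.lt
      rw [e3] at b1
      rw [e1] at b3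
      omega

end Pool.Agent.MP_a1dcd4_co.MD
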