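import Mathlib

/-! Modular lattices with cyclic automorphism group of prime order: statements of the steps. -/

set_option autoImplicit false

namespace Pool.Agent.MP_a1dcd4_co.MD

/-- A rank function on a finite modular lattice. -/
structure Rk {L : Type} [Lattice L] (ρ : L → ℕ) : Prop where
  mono : StrictMono ρ
  add : ∀ x y, ρ (x ⊔ y) + ρ (x ⊓ y) = ρ x + ρ y
  cov : ∀ x y, x ⋖ y → ρ y = ρ x + 1
  inv : ∀ (σ : L ≃o L) (x : L), ρ (σ x) = ρ x

/-- Rank functions exist. -/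
def SRank : Prop :=
  ∀ (L : Type) [Lattice L] [IsModularLattice L] [Finite L], ∃ ρ : L → ℕ, Rk ρ

/-- If two moving upper covers of a fixed element always have a fixed join, there is an
involution. -/
def SConf : Prop :=
  ∀ (L : Type) [Lattice L] [IsModularLattice L] [Finite L] (σ : L ≃o L), (∃ x, σ x ≠ x) →
    (∀ f x x' : L, σ f = f → f ⋖ x → f ⋖ x' → x ≠ x' → σ x ≠ x → σ x' ≠ x' →
      σ (x ⊔ x') = x ⊔ x') →
    ∃ τ : L ≃o L, τ ≠ 1 ∧ τ * τ = 1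

/-- The geometric step. -/
def SGeo : Prop :=
  ∀ (L : Type) [Lattice L] [Finite L] (ρ : L → ℕ) (σ : L ≃o L) (p : ℕ), Rk ρ → p.Prime →
    p % 3 = 2 → p % 5 ≠ 1 → σ ^ p = 1 → ∀ f x x' : L, σ f = f → f ⋖ x → f ⋖ x' → x ≠ x' →
      σ x ≠ x → σ x' ≠ x' → σ (x ⊔ x') ≠ x ⊔ x' → p ^ 2 ≤ 6 * Nat.card L

/-- The construction. -/
def SUp : Prop :=
  ∀ n : ℕ, 2 ≤ n → ∃ (L : Type) (_ : Lattice L) (_ : IsModularLattice L) (_ : Finite L),
    Nonempty ((L ≃o L) ≃* Multiplicative (ZMod n)) ∧ Nat.card L ≤ 243 * n ^ 2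

end Pool.Agent.MP_a1dcd4_co.MD
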