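import Pool.Agent.MP_a1dcd4_co.MD.St

/-! A finite modular lattice with cyclic automorphism group and quadratically many elements. -/

set_option autoImplicit false

namespace Pool.Agent.MP_a1dcd4_co.MD

/-- the lattice of height two whose atoms are the residues mod `n` -/
inductive M_Up (n : ℕ) : Type
  | bot : M_Up n
  | atom : ZMod n → M_Up n
  | top : M_Up n

namespace M_Up

variable {n : ℕ}

def le1 (a b : M_Up n) : Prop := a = bot ∨ b = top ∨ a = b

def sup1 : M_Up n → M_Up n → M_Up n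
  | bot, b => b
  | top, _ => top
  | atom i, bot => atom i
  | atom _, top => top
  | atom i, atom j => if i = j then atom i else top

def inf1 : M_Up n → M_Up n → M_Up n
  | bot, _ => bot
  | top, b => b
  | atom _, bot => bot
  | atom i, top => atom i
  | atom i, atom j => if i = j then atom i else bot

instance lat_Up : Lattice (M_Up n) where
  le := le1
  le_refl a := Or.inr (Or.inr rfl)
  le_trans a b c := by
    cases a <;> cases b <;> cases c <;> simp +contextual [le1]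
  le_antisymm a b := by
    cases a <;> cases b <;> simp +contextual [le1]
  sup := sup1
  inf := inf1
  le_sup_left a b := by
    cases a <;> cases b <;> simp only [le1, sup1] <;> (try split_ifs) <;> simp
  le_sup_right a b := by
    cases a <;> cases b <;> simp only [le1, sup1] <;> (try split_ifs) <;> simp_all
  sup_le a b c := by
    cases a <;> cases b <;> cases c <;> simp only [le1, sup1] <;> (try split_ifs) <;>
      simp_all <;> grind
  inf_le_left a b := by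
    cases a <;> cases b <;> simp only [le1, inf1] <;> (try split_ifs) <;> simp
  inf_le_right a b := by
    cases a <;> cases b <;> simp only [le1, inf1] <;> (try split_ifs) <;> simp_all
  le_inf a b c := by
    cases a <;> cases b <;> cases c <;> simp only [le1, inf1] <;> (try split_ifs) <;> simp_all

theorem le_def (a b : M_Up n) : a ≤ b ↔ a = bot ∨ b = top ∨ a = b := Iff.rfl

theorem sup_def (a b : M_Up n) : a ⊔ b = sup1 a b := rfl

theorem inf_def (a b : M_Up n) : a ⊓ b = inf1 a b := rfl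

@[simp] theorem bot_le1 (a : M_Up n) : bot ≤ a := Or.inl rfl

@[simp] theorem le_top1 (a : M_Up n) : a ≤ top := Or.inr (Or.inl rfl)

@[simp] theorem atom_le (i j : ZMod n) : atom i ≤ atom j ↔ i = j := by simp [le_def]

@[simp] theorem atom_bot (i : ZMod n) : ¬ atom i ≤ bot := by simp [le_def]

@[simp] theorem top_atom (i : ZMod n) : ¬ top ≤ atom i := by simp [le_def]

@[simp] theorem top_bot : ¬ (top : M_Up n) ≤ bot := by simp [le_def]

theorem modu (a b c : M_Up n) (h : a ≤ c) : (a ⊔ b) ⊓ c ≤ a ⊔ b ⊓ c := by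
  rcases h with rfl | rfl | rfl
  · rw [sup_eq_right.2 (bot_le1 _), sup_eq_right.2 (bot_le1 _)]
  · rw [inf_eq_left.2 (le_top1 _), inf_eq_left.2 (le_top1 _)]
  · exact inf_le_right.trans le_sup_left

theorem atomistic (h01 : (0 : ZMod n) ≠ 1) (a b : M_Up n)
    (h : ∀ i, atom i ≤ a → atom i ≤ b) : a ≤ b := by
  cases a with
  | bot => simp
  | atom i => exact h i le_rfl
  | top =>
    have h0 := h 0 (le_top1 _)
    have h1 := h 1 (le_top1 _)
    cases b with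
    | bot => simp at h0
    | atom j => exact absurd (((atom_le _ _).1 h0).trans ((atom_le _ _).1 h1).symm) h01
    | top => simp

def sh (t : ZMod n) : M_Up n → M_Up n
  | bot => bot
  | atom i => atom (i + t)
  | top => top

theorem sh_le (t : ZMod n) (a b : M_Up n) : sh t a ≤ sh t b ↔ a ≤ b := by
  cases a <;> cases b <;> simp [sh]

theorem sh_sh (s t : ZMod n) (a : M_Up n) : sh s (sh t a) = sh (s + t) a := by
  cases a <;> simp only [sh]
  rw [add_assoc, add_comm t s]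

theorem sh_zero (a : M_Up n) : sh 0 a = a := by cases a <;> simp [sh]

theorem sh_sup (t : ZMod n) (a b : M_Up n) : sh t (a ⊔ b) = sh t a ⊔ sh t b := by
  cases a <;> cases b <;> simp only [sh, sup_def, sup1, add_left_inj]
  split_ifs <;> rfl

def ty : M_Up n → Fin 3
  | bot => 0
  | atom _ => 1
  | top => 2

def mk1 (k : Fin 3) (s : ZMod n) : M_Up n := ![bot, atom s, top] k

theorem chain3 (a b c : M_Up n) (h1 : a ≤ b) (h2 : b ≤ c) :
    ∃ s, a = mk1 (ty a) s ∧ b = mk1 (ty b) s ∧ c = mk1 (ty c) s := by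
  cases a <;> cases b <;> cases c <;> simp_all [mk1, ty]

theorem chain2 (a b : M_Up n) (h : sh 1 a ≤ b) :
    ∃ t, a = mk1 (ty a) t ∧ b = mk1 (ty b) (t + 1) := by
  cases a with
  | bot =>
    cases b with
    | atom j => exact ⟨j - 1, rfl, by simp [mk1, ty]⟩
    | bot => exact ⟨0, rfl, rfl⟩
    | top => exact ⟨0, rfl, rfl⟩
  | atom i => cases b <;> simp_all [mk1, ty, sh]
  | top => cases b <;> simp_all [mk1, ty, sh]

end M_Up

open M_Up

variable {n : ℕ}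

/-- the sublattice of the fifth power -/
def S_Up (n : ℕ) : Sublattice (Fin 5 → M_Up n) where
  carrier := {x | x 0 ≤ x 4 ∧ x 4 ≤ x 2 ∧ x 0 ≤ x 3 ∧ x 1 ≤ x 2 ∧ sh 1 (x 1) ≤ x 3}
  supClosed' := by
    rintro x ⟨a1, a2, a3, a4, a5⟩ y ⟨b1, b2, b3, b4, b5⟩
    refine ⟨sup_le_sup a1 b1, sup_le_sup a2 b2, sup_le_sup a3 b3, sup_le_sup a4 b4, ?_⟩
    rw [Pi.sup_apply, sh_sup]
    exact sup_le_sup a5 b5
  infClosed' := by
    rintro x ⟨a1, a2, a3, a4, a5⟩ y ⟨b1, b2, b3, b4, b5⟩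
    exact ⟨inf_le_inf a1 b1, inf_le_inf a2 b2, inf_le_inf a3 b3, inf_le_inf a4 b4,
      le_inf (((sh_le _ _ _).2 inf_le_left).trans a5) (((sh_le _ _ _).2 inf_le_right).trans b5)⟩

theorem mem_Up (x : Fin 5 → M_Up n) : x ∈ S_Up n ↔
    x 0 ≤ x 4 ∧ x 4 ≤ x 2 ∧ x 0 ≤ x 3 ∧ x 1 ≤ x 2 ∧ sh 1 (x 1) ≤ x 3 := Iff.rfl

def ev_Up (q : Fin 5) (i : ZMod n) : Fin 5 → M_Up n :=
  ![![atom i, bot, atom i, atom i, atom i], ![bot, atom i, atom i, atom (i + 1), bot],
    ![bot, bot, atom i, bot, bot], ![bot, bot, bot, atom i, bot],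
    ![bot, bot, atom i, bot, atom i]] q

def e_Up (q : Fin 5) (i : ZMod n) : S_Up n :=
  ⟨ev_Up q i, by fin_cases q <;> simp [mem_Up, ev_Up, sh]⟩

theorem ev_self_Up (q : Fin 5) (i : ZMod n) : ev_Up q i q = atom i := by fin_cases q <;> rfl

theorem gen_Up (q : Fin 5) (i : ZMod n) (x : S_Up n) : e_Up q i ≤ x ↔ atom i ≤ x.1 q := by
  refine ⟨fun h => ev_self_Up q i ▸ h q, fun h r => ?_⟩
  obtain ⟨h1, h2, h3, h4, h5⟩ := x.2
  change ev_Up q i r ≤ x.1 r
  fin_cases q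
  · fin_cases r
    exacts [h, bot_le1 _, (h.trans h1).trans h2, h.trans h3, h.trans h1]
  · fin_cases r
    exacts [bot_le1 _, h, h.trans h4, ((sh_le 1 _ _).2 h).trans h5, bot_le1 _]
  · fin_cases r
    exacts [bot_le1 _, bot_le1 _, h, bot_le1 _, bot_le1 _]
  · fin_cases r
    exacts [bot_le1 _, bot_le1 _, bot_le1 _, h, bot_le1 _]
  · fin_cases r
    exacts [bot_le1 _, bot_le1 _, h.trans h2, bot_le1 _, h]

theorem le_Up (h01 : (0 : ZMod n) ≠ 1) (x y : S_Up n)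
    (h : ∀ q i, e_Up q i ≤ x → e_Up q i ≤ y) : x ≤ y := fun q =>
  atomistic h01 _ _ fun i hi => (gen_Up q i y).1 (h q i ((gen_Up q i x).2 hi))

theorem tab_Up (q r : Fin 5) (i j : ZMod n) : e_Up q i ≤ e_Up r j ↔ atom i ≤ ev_Up r j q :=
  gen_Up q i _

theorem inj_Up {q r : Fin 5} {i j : ZMod n} (h : e_Up q i = e_Up r j) : q = r ∧ i = j := by
  have h1 := (tab_Up _ _ _ _).1 h.le
  have h2 := (tab_Up _ _ _ _).1 h.ge
  fin_cases q <;> fin_cases r <;> simp_all [ev_Up]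

theorem lt_Up {q r : Fin 5} {i j : ZMod n} : e_Up q i < e_Up r j ↔
    (q = 2 ∧ r = 4 ∧ i = j) ∨ (q = 4 ∧ r = 0 ∧ i = j) ∨ (q = 2 ∧ r = 0 ∧ i = j) ∨
    (q = 3 ∧ r = 0 ∧ i = j) ∨ (q = 2 ∧ r = 1 ∧ i = j) ∨ (q = 3 ∧ r = 1 ∧ i = j + 1) := by
  rw [lt_iff_le_not_ge, tab_Up, tab_Up]
  fin_cases q <;> fin_cases r <;> simp +contextual [ev_Up]

/-- `z` is not the least upper bound of the elements below it -/
def J_Up {L : Type} [PartialOrder L] (z : L) : Prop := ∃ y, (∀ x, x < z → x ≤ y) ∧ ¬ z ≤ y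

theorem J_map_Up {L : Type} [PartialOrder L] (φ : L ≃o L) {z : L} (h : J_Up z) : J_Up (φ z) := by
  obtain ⟨y, h1, h2⟩ := h
  refine ⟨φ y, fun x hx => ?_, fun c => h2 (φ.le_iff_le.1 c)⟩
  obtain ⟨x, rfl⟩ := φ.surjective x
  exact φ.le_iff_le.2 (h1 x (φ.lt_iff_lt.1 hx))

theorem J_e_Up (q : Fin 5) (i : ZMod n) : J_Up (e_Up q i) := by
  refine ⟨⟨Function.update (ev_Up q i) q bot, by
    fin_cases q <;> simp [mem_Up, ev_Up, sh]⟩, fun x hx r => ?_, fun c => ?_⟩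
  · change x.1 r ≤ Function.update (ev_Up q i) q bot r
    by_cases hr : r = q
    · subst hr
      rw [Function.update_self]
      have h1 : x.1 r ≤ atom i := ev_self_Up r i ▸ hx.le r
      have h2 : ¬ atom i ≤ x.1 r := fun c => hx.not_ge ((gen_Up r i x).2 c)
      rcases h1 with h | h | h
      · exact h.le
      · cases h
      · exact absurd h.ge h2
    · rw [Function.update_of_ne hr]
      exact hx.le r
  · have := (gen_Up q i _).1 c
    simp at this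

theorem J_only_Up (h01 : (0 : ZMod n) ≠ 1) {z : S_Up n} (h : J_Up z) : ∃ q i, z = e_Up q i := by
  obtain ⟨y, h1, h2⟩ := h
  by_contra c
  exact h2 (le_Up h01 _ _ fun q i hi => h1 _ (lt_of_le_of_ne hi fun e => c ⟨q, i, e.symm⟩))

def shl_Up (t : ZMod n) (x : S_Up n) : S_Up n :=
  ⟨fun q => sh t (x.1 q), by
    obtain ⟨h1, h2, h3, h4, h5⟩ := x.2
    refine ⟨(sh_le _ _ _).2 h1, (sh_le _ _ _).2 h2, (sh_le _ _ _).2 h3, (sh_le _ _ _).2 h4, ?_⟩
    rw [sh_sh, add_comm, ← sh_sh]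
    exact (sh_le _ _ _).2 h5⟩

theorem shl_shl_Up (s t : ZMod n) (x : S_Up n) : shl_Up s (shl_Up t x) = shl_Up (s + t) x :=
  Subtype.ext (funext fun _ => sh_sh _ _ _)

theorem shl_zero_Up (x : S_Up n) : shl_Up 0 x = x := Subtype.ext (funext fun _ => sh_zero _)

def shift_Up (t : ZMod n) : S_Up n ≃o S_Up n where
  toFun := shl_Up t
  invFun := shl_Up (-t)
  left_inv x := by rw [shl_shl_Up, neg_add_cancel, shl_zero_Up]
  right_inv x := by rw [shl_shl_Up, add_neg_cancel, shl_zero_Up]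
  map_rel_iff' := forall_congr' fun _ => sh_le _ _ _

theorem shift_e_Up (t : ZMod n) (q : Fin 5) (i : ZMod n) :
    shift_Up t (e_Up q i) = e_Up q (i + t) := by
  refine Subtype.ext (funext fun r => ?_)
  change sh t (ev_Up q i r) = ev_Up q (i + t) r
  fin_cases q <;> fin_cases r <;> simp [ev_Up, sh, add_right_comm]

theorem rigid_Up [NeZero n] (h01 : (0 : ZMod n) ≠ 1) (φ : S_Up n ≃o S_Up n) :
    ∃ t, φ = shift_Up t := by
  have k : ∀ q i, ∃ r j, φ (e_Up q i) = e_Up r j := fun q i =>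
    J_only_Up h01 (J_map_Up φ (J_e_Up q i))
  have ne : ∀ {q r : Fin 5} {i : ZMod n}, φ (e_Up q i) = φ (e_Up r i) → q = r := fun h =>
    (inj_Up (φ.injective h)).1
  have k1 : ∀ i, ∃ j, ∀ q, φ (e_Up q i) = e_Up q j := by
    intro i
    obtain ⟨r0, j0, e0⟩ := k 0 i
    obtain ⟨r1, j1, e1⟩ := k 1 i
    obtain ⟨r2, j2, e2⟩ := k 2 i
    obtain ⟨r3, j3, e3⟩ := k 3 i
    obtain ⟨r4, j4, e4⟩ := k 4 i
    have l24 : e_Up r2 j2 < e_Up r4 j4 := e2 ▸ e4 ▸ φ.lt_iff_lt.2 (lt_Up.2 (by simp))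
    have l40 : e_Up r4 j4 < e_Up r0 j0 := e4 ▸ e0 ▸ φ.lt_iff_lt.2 (lt_Up.2 (by simp))
    have l30 : e_Up r3 j3 < e_Up r0 j0 := e3 ▸ e0 ▸ φ.lt_iff_lt.2 (lt_Up.2 (by simp))
    have l21 : e_Up r2 j2 < e_Up r1 j1 := e2 ▸ e1 ▸ φ.lt_iff_lt.2 (lt_Up.2 (by simp))
    have a : r2 = 2 ∧ r4 = 4 ∧ r0 = 0 ∧ j2 = j4 ∧ j0 = j4 := by
      rcases lt_Up.1 l24 with ⟨rfl, rfl, rfl⟩ | ⟨rfl, rfl, rfl⟩ | ⟨rfl, rfl, rfl⟩ |
        ⟨rfl, rfl, rfl⟩ | ⟨rfl, rfl, rfl⟩ | ⟨rfl, rfl, rfl⟩ <;>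
      simpa [lt_Up, eq_comm] using l40
    obtain ⟨rfl, rfl, rfl, rfl, rfl⟩ := a
    have b : r3 = 3 ∧ j3 = j0 := by
      rcases lt_Up.1 l30 with ⟨-, h, -⟩ | ⟨rfl, -, rfl⟩ | ⟨rfl, -, rfl⟩ |
        ⟨rfl, -, rfl⟩ | ⟨-, h, -⟩ | ⟨-, h, -⟩
      · exact absurd h (by decide)
      · exact absurd (ne (e3.trans e4.symm)) (by decide)
      · exact absurd (ne (e3.trans e2.symm)) (by decide)
      · exact ⟨rfl, rfl⟩
      · exact absurd h (by decide)
      · exact absurd h (by decide)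
    have c : r1 = 1 ∧ j1 = j0 := by
      rcases lt_Up.1 l21 with ⟨-, rfl, rfl⟩ | ⟨h, -, -⟩ | ⟨-, rfl, rfl⟩ |
        ⟨h, -, -⟩ | ⟨-, rfl, rfl⟩ | ⟨h, -, -⟩
      · exact absurd (ne (e1.trans e4.symm)) (by decide)
      · exact absurd h (by decide)
      · exact absurd (ne (e1.trans e0.symm)) (by decide)
      · exact absurd h (by decide)
      · exact ⟨rfl, rfl⟩
      · exact absurd h (by decide)
    obtain ⟨rfl, rfl⟩ := b
    obtain ⟨rfl, rfl⟩ := c
    refine ⟨j1, fun q => ?_⟩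
    fin_cases q
    exacts [e0, e1, e2, e3, e4]
  choose g hg using k1
  have st : ∀ i, g (i + 1) = g i + 1 := fun i => by
    have l : e_Up 3 (g (i + 1)) < e_Up 1 (g i) :=
      hg (i + 1) 3 ▸ hg i 1 ▸ φ.lt_iff_lt.2 (lt_Up.2 (by simp))
    simpa [lt_Up] using l
  have gn : ∀ m : ℕ, g m = m + g 0 := fun m => by
    induction m with
    | zero => simp
    | succ m ih => rw [Nat.cast_succ, st, ih, add_right_comm]
  have ag : ∀ q i, φ (e_Up q i) = shift_Up (g 0) (e_Up q i) := fun q i => by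
    obtain ⟨m, rfl⟩ := ZMod.natCast_zmod_surjective i
    rw [hg, shift_e_Up, gn]
  have su : ∀ q j, ∃ i, e_Up q j = shift_Up (g 0) (e_Up q i) := fun q j =>
    ⟨j - g 0, by rw [shift_e_Up, sub_add_cancel]⟩
  refine ⟨g 0, RelIso.ext fun x => le_antisymm (le_Up h01 _ _ fun q j h => ?_)
    (le_Up h01 _ _ fun q j h => ?_)⟩
  · obtain ⟨i, e⟩ := su q j
    rw [e] at h ⊢
    rw [← ag] at h
    exact (shift_Up _).le_iff_le.2 (φ.le_iff_le.1 h)
  · obtain ⟨i, e⟩ := su q j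
    rw [e] at h ⊢
    rw [← ag]
    exact φ.le_iff_le.2 ((shift_Up _).le_iff_le.1 h)

def hom_Up (n : ℕ) : Multiplicative (ZMod n) →* (S_Up n ≃o S_Up n) :=
  MonoidHom.mk' (fun t => shift_Up t.toAdd) fun _ _ =>
    RelIso.ext fun x => (shl_shl_Up _ _ x).symm

theorem code_Up (x : S_Up n) : ∃ c : (Fin 5 → Fin 3) × ZMod n × ZMod n,
    x.1 = fun q => mk1 (c.1 q) (![c.2.1, c.2.2, c.2.1, c.2.2 + 1, c.2.1] q) := by
  obtain ⟨h1, h2, -, -, h5⟩ := x.2
  obtain ⟨s, a1, a2, a3⟩ := chain3 _ _ _ h1 h2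
  obtain ⟨t, b1, b2⟩ := chain2 _ _ h5
  refine ⟨(fun q => ty (x.1 q), s, t), funext fun q => ?_⟩
  fin_cases q
  exacts [a1, b1, a3, b2, a2]

theorem sUp : SUp := by
  intro n hn
  have : NeZero n := ⟨by omega⟩
  have : Fact (1 < n) := ⟨hn⟩
  have h01 : (0 : ZMod n) ≠ 1 := zero_ne_one
  choose c hc using code_Up (n := n)
  have ci : Function.Injective c := fun x y e => Subtype.ext (by rw [hc x, hc y, e])
  refine ⟨S_Up n, inferInstance, ⟨fun {x} y {z} h q => modu _ _ _ (h q)⟩, Finite.of_injective c ci,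
    ⟨(MulEquiv.ofBijective (hom_Up n) ⟨fun s t e => ?_, fun φ => ?_⟩).symm⟩, ?_⟩
  · have h : shift_Up s.toAdd (e_Up 0 0) = shift_Up t.toAdd (e_Up 0 0) :=
      congrArg (fun ψ : S_Up n ≃o S_Up n => ψ (e_Up 0 0)) e
    rw [shift_e_Up, shift_e_Up] at h
    simpa using (inj_Up h).2
  · obtain ⟨t, rfl⟩ := rigid_Up h01 φ
    exact ⟨Multiplicative.ofAdd t, rfl⟩
  · refine (Nat.card_le_card_of_injective c ci).trans (le_of_eq ?_)
    simp [pow_two]

end Pool.Agent.MP_a1dcd4_co.MD
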